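import Pool.Agent.TH119.MX.Mat

/-!
# Algebraic subgroups of the general linear group as sets of matrices
-/

set_option autoImplicit false

open Finset Matrix

namespace Pool.Agent.TH164.A1

open Pool.Agent.TH119.MX

/-- The field of algebraic numbers. -/
noncomputable def QA : Subfield ℂ := (algebraicClosure ℚ ℂ).toSubfield

theorem mem_QA {x : ℂ} : x ∈ QA ↔ IsAlgebraic ℚ x := by
  unfold QA
  exact mem_algebraicClosure_iff

theorem sqClosed_QA : SqClosed QA := by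
  intro w hw
  rw [mem_QA] at hw ⊢
  rw [← sq] at hw
  exact hw.of_pow two_pos

/-- The inverse of a matrix with entries in a subfield. -/
theorem inv_mem_entries {B : Type*} [Fintype B] [DecidableEq B] {K : Subfield ℂ}
    {A : Matrix B B ℂ} (hA : ∀ i j, A i j ∈ K) (i j : B) : A⁻¹ i j ∈ K := by
  set A₀ : Matrix B B K := Matrix.of fun i j => ⟨A i j, hA i j⟩ with hA₀
  have h1 : A = A₀.map K.subtype := by
    ext i j
    rfl
  have h2 : A.adjugate = A₀.adjugate.map K.subtype := by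
    rw [h1]
    exact (K.subtype.map_adjugate A₀).symm
  have h3 : A.det = K.subtype A₀.det := by
    rw [h1]
    exact (K.subtype.map_det A₀).symm
  rw [Matrix.inv_def, Matrix.smul_apply, h2, h3, smul_eq_mul, Ring.inverse_eq_inv']
  exact K.mul_mem (K.inv_mem (Subtype.mem _)) (Subtype.mem _)

variable {N : Type} [Fintype N] [DecidableEq N]

/-- The set of matrices of a subgroup. -/
def carr (H : Subgroup (GL N ℂ)) : Set (Matrix N N ℂ) := {M | ∃ g ∈ H, (g : Matrix N N ℂ) = M}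

theorem algGrp_carr {F : Subfield ℂ} {H : Subgroup (GL N ℂ)}
    (hH : ∃ I : Set (MvPolynomial (N × N) ℂ), (∀ p ∈ I, ∀ m, p.coeff m ∈ F) ∧
      ∀ g : GL N ℂ, g ∈ H ↔
        ∀ p ∈ I, MvPolynomial.eval (fun b => (g : Matrix N N ℂ) b.1 b.2) p = 0) :
    AlgGrp F (carr H) where
  one := ⟨1, one_mem _, Units.val_one⟩
  mul := by
    rintro _ ⟨g, hg, rfl⟩ _ ⟨h, hh, rfl⟩
    exact ⟨g * h, mul_mem hg hh, Units.val_mul _ _⟩
  inv := by
    rintro _ ⟨g, hg, rfl⟩
    refine ⟨((g⁻¹ : GL N ℂ) : Matrix N N ℂ), ⟨g⁻¹, inv_mem hg, rfl⟩, ?_, ?_⟩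
    · rw [← Units.val_mul, mul_inv_cancel, Units.val_one]
    · rw [← Units.val_mul, inv_mul_cancel, Units.val_one]
  alg := by
    obtain ⟨I, hI, hI2⟩ := hH
    refine ⟨I, hI, fun M => ⟨?_, ?_⟩⟩
    · rintro ⟨g, hg, rfl⟩
      refine ⟨⟨((g⁻¹ : GL N ℂ) : Matrix N N ℂ), ?_, ?_⟩, (hI2 g).1 hg⟩
      · rw [← Units.val_mul, mul_inv_cancel, Units.val_one]
      · rw [← Units.val_mul, inv_mul_cancel, Units.val_one]
    · rintro ⟨⟨M', h1, h2⟩, h3⟩
      exact ⟨⟨M, M', h1, h2⟩, (hI2 _).2 h3, rfl⟩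

end Pool.Agent.TH164.A1
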