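import Pool.Agent.TH164.A1.Lie2

/-!
# The representation on the sum of the Kronecker products, and the group
-/

set_option autoImplicit false
set_option linter.unusedSectionVars false
set_option linter.unusedVariables false

open Finset Matrix

namespace Pool.Agent.TH164.A1

open Pool.Agent.TH119.MX Pool.Agent.TH119.DR

variable {C ι : Type} [Fintype C] [DecidableEq C] [DecidableEq ι]

/-- The index set of the sum of the Kronecker products. -/
abbrev IX (S : C → Finset ι) : Type := Σ c : C, NN (S c)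

/-- The group element: the sum of the Kronecker products, multiplied by `t`. -/
def rg (S : C → Finset ι) (g : ι → M2) (t : ℂ) : Matrix (IX S) (IX S) ℂ :=
  blockDiagonal' fun c => t • kr (S c) g

/-- The element of the Lie algebra. -/
def rl (S : C → Finset ι) (X : LL2 ι) : Matrix (IX S) (IX S) ℂ :=
  blockDiagonal' fun c => dk (S c) X.1 + X.2 • (1 : Matrix (NN (S c)) (NN (S c)) ℂ)

variable (S : C → Finset ι)

theorem rg_mul (g h : ι → M2) (t u : ℂ) : rg S g t * rg S h u = rg S (g * h) (t * u) := by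
  rw [rg, rg, rg, ← blockDiagonal'_mul]
  congr 1
  funext c
  rw [Matrix.smul_mul, Matrix.mul_smul, smul_smul, kr_mul]

theorem rg_one : rg S (1 : ι → M2) 1 = 1 := by
  rw [rg]
  simp only [kr_one, one_smul]
  exact blockDiagonal'_one

theorem rl_add (X Y : LL2 ι) : rl S (X + Y) = rl S X + rl S Y := by
  rw [rl, rl, rl, ← blockDiagonal'_add]
  congr 1
  funext c
  rw [Pi.add_apply, Prod.fst_add, Prod.snd_add, dk_add, add_smul]
  abel

theorem rl_smul (a : ℂ) (X : LL2 ι) : rl S (a • X) = a • rl S X := by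
  rw [rl, rl, ← blockDiagonal'_smul]
  congr 1
  funext c
  rw [Pi.smul_apply, Prod.smul_fst, Prod.smul_snd, dk_smul, smul_add, smul_smul, smul_eq_mul]

theorem rl_zero : rl S (0 : LL2 ι) = 0 := by
  have h := rl_smul S 0 (0 : LL2 ι)
  rwa [zero_smul, zero_smul] at h

theorem rl_comm (X Y : LL2 ι) : rl S X * rl S Y - rl S Y * rl S X =
    rl S ((fun i => X.1 i * Y.1 i - Y.1 i * X.1 i, 0) : LL2 ι) := by
  rw [rl, rl, rl, ← blockDiagonal'_mul, ← blockDiagonal'_mul, ← blockDiagonal'_sub]
  congr 1
  funext c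
  rw [Pi.sub_apply, zero_smul, add_zero, ← dk_comm]
  simp only [Matrix.add_mul, Matrix.mul_add, Matrix.smul_mul, Matrix.mul_smul, Matrix.one_mul,
    Matrix.mul_one]
  rw [smul_add, smul_add, smul_comm X.2 Y.2]
  abel

theorem rl_map {F : Subfield ℂ} (f : ℂ →ₗ[F] ℂ) (X : LL2 ι) :
    (rl S X).map f = rl S ((fun i => (X.1 i).map f, f X.2) : LL2 ι) := by
  rw [rl, rl, blockDiagonal'_map _ _ (map_zero f)]
  congr 1
  funext c
  rw [← dk_map]
  ext a b
  rw [Matrix.map_apply, Matrix.add_apply, Matrix.add_apply, Matrix.map_apply, map_add,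
    Matrix.smul_apply, Matrix.smul_apply, smul_eq_mul, smul_eq_mul]
  congr 1
  by_cases h : a = b
  · subst h
    rw [Matrix.one_apply_eq, mul_one, mul_one]
  · rw [Matrix.one_apply_ne h, mul_zero, mul_zero, map_zero]

theorem rl_conj {g g' : ι → M2} (h : ∀ i, g i * g' i = 1) {t t' : ℂ} (ht : t * t' = 1)
    (X : LL2 ι) : rg S g t * rl S X * rg S g' t' =
      rl S ((fun i => g i * X.1 i * g' i, X.2) : LL2 ι) := by
  rw [rg, rg, rl, rl, ← blockDiagonal'_mul, ← blockDiagonal'_mul]
  congr 1
  funext c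
  have h1 : kr (S c) g * kr (S c) g' = 1 := by
    rw [kr_mul, ← kr_one]
    congr 1
    funext i
    exact h i
  rw [← dk_conj (S c) h, Matrix.smul_mul, Matrix.smul_mul, Matrix.mul_smul, smul_smul, ht,
    one_smul, Matrix.mul_add, Matrix.add_mul, Matrix.mul_smul, Matrix.mul_one, Matrix.smul_mul,
    h1]

theorem rg_der (δ : Derivation ℚ ℂ ℂ) {g g' : ι → M2} (h : ∀ i, g i * g' i = 1)
    (h' : ∀ i, g' i * g i = 1) {t : ℂ} (ht : t ≠ 0) :
    (rg S g t).map δ * rg S g' t⁻¹ =
      rl S ((fun i => (g i).map δ * g' i, δ t / t) : LL2 ι) := by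
  rw [rg, rg, rl, blockDiagonal'_map _ _ (map_zero δ), ← blockDiagonal'_mul]
  congr 1
  funext c
  have h1 : kr (S c) g * kr (S c) g' = 1 := by
    rw [kr_mul, ← kr_one]
    congr 1
    funext i
    exact h i
  have h2 : (t • kr (S c) g).map δ = t • (kr (S c) g).map δ + δ t • kr (S c) g := by
    ext a b
    rw [Matrix.map_apply, Matrix.smul_apply, smul_eq_mul, Derivation.leibniz, Matrix.add_apply,
      Matrix.smul_apply, Matrix.smul_apply, Matrix.map_apply, smul_eq_mul, smul_eq_mul,
      mul_comm (kr (S c) g a b)]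
    rfl
  rw [h2, Matrix.add_mul, Matrix.smul_mul, Matrix.smul_mul, Matrix.mul_smul, Matrix.mul_smul,
    kr_der (S c) δ h h', h1, smul_smul, smul_smul, mul_inv_cancel₀ ht, one_smul,
    ← div_eq_mul_inv]

variable {S} {F K : Subfield ℂ} {H : Set (Matrix (IX S) (IX S) ℂ)}
  {A A' : Matrix (IX S) (IX S) ℂ} {s s' : ι → M2} {z : ℂ}

/-- The stabilizer, as a space of elements of the Lie algebra. -/
def Sd2 (H : Set (Matrix (IX S) (IX S) ℂ)) (d : ℕ) : Submodule ℂ (LL2 ι) where
  carrier := {X | (∀ i, (X.1 i).trace = 0) ∧ Stab H d (rl S X)}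
  zero_mem' := ⟨fun i => Matrix.trace_zero _ _, by rw [rl_zero]; exact Stab.zero⟩
  add_mem' := by
    rintro X Y ⟨h1, h2⟩ ⟨h3, h4⟩
    refine ⟨fun i => ?_, ?_⟩
    · change (X.1 i + Y.1 i).trace = 0
      rw [Matrix.trace_add, h1, h3, add_zero]
    · rw [rl_add]
      exact h2.add h4
  smul_mem' := by
    rintro a X ⟨h1, h2⟩
    refine ⟨fun i => ?_, ?_⟩
    · change (a • X.1 i).trace = 0
      rw [Matrix.trace_smul, h1, smul_zero]
    · rw [rl_smul]
      exact h2.smul a

theorem rg_inv {g g' : ι → M2} (h : ∀ i, g i * g' i = 1) {t t' : ℂ} (ht : t * t' = 1) :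
    rg S g t * rg S g' t' = 1 := by
  rw [rg_mul, ht, ← rg_one]
  congr 1
  funext i
  exact h i

theorem gd_Sd2 (hH : AlgGrp F H) (hFK : F ≤ K) (hKA : ∀ x ∈ K, IsAlgebraic ℚ x)
    (hy : Hy K s s' z) (hA : A * A' = 1) (hA' : ∀ i j, A' i j ∈ K) (hPA : rg S s z * A ∈ H)
    (d : ℕ) : Gd F K s s' z (Sd2 H d) where
  tr X hX := hX.1
  br X hX Y hY := by
    refine ⟨fun i => ?_, ?_⟩
    · change (X.1 i * Y.1 i - Y.1 i * X.1 i).trace = 0
      rw [Matrix.trace_sub, Matrix.trace_mul_comm, sub_self]
    · rw [← rl_comm]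
      exact hX.2.comm hY.2
  hF f X hX := by
    refine ⟨fun i => ?_, ?_⟩
    · change ((X.1 i).map f).trace = 0
      have h1 := congrArg f (hX.1 i)
      rw [map_zero, Matrix.trace_fin_two, map_add] at h1
      rw [Matrix.trace_fin_two]
      exact h1
    · have h1 := hH.stab_map f hX.2
      rwa [rl_map] at h1
  hK f X hX := by
    have hz : z⁻¹ * z = 1 := inv_mul_cancel₀ hy.z0
    have hz' : z * z⁻¹ = 1 := mul_inv_cancel₀ hy.z0
    refine ⟨fun i => ?_, ?_⟩
    · change (s i * (s' i * X.1 i * s i).map f * s' i).trace = 0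
      have h0 : (s' i * X.1 i * s i).trace = 0 := by
        rw [Matrix.trace_mul_comm, ← Matrix.mul_assoc, hy.ss', Matrix.one_mul, hX.1 i]
      have h1 := congrArg f h0
      rw [map_zero, Matrix.trace_fin_two, map_add] at h1
      rw [Matrix.trace_mul_comm, ← Matrix.mul_assoc, hy.s's, Matrix.one_mul,
        Matrix.trace_fin_two]
      exact h1
    · have h1 := hH.stab_map' hFK (rg_inv hy.ss' hz') (rg_inv hy.s's hz) hA hA' hPA f hX.2
      rwa [rl_conj S hy.s's hz, rl_map, rl_conj S hy.ss' hz'] at h1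
  der δ := by
    refine ⟨fun i => ?_, ?_⟩
    · change ((s i).map δ * s' i).trace = 0
      have h1 := tr_der δ (hy.s's i)
      rwa [hy.det, mul_one, Derivation.map_one_eq_zero] at h1
    · rw [← rg_der S δ hy.ss' hy.s's hy.z0]
      exact hH.stab_der hFK hKA (rg_inv hy.ss' (mul_inv_cancel₀ hy.z0))
        (rg_inv hy.s's (inv_mul_cancel₀ hy.z0)) hA hA' hPA δ

/-! ### Generation of the group -/

section gen

variable [Fintype ι]
variable (hst : ∀ X : LL2 ι, (∀ i, (X.1 i).trace = 0) → ∀ d, Stab H d (rl S X))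

include hst

/-- Homotheties. -/
theorem pres_scalar (t : ℂ) : Pres H (rg S 1 t) := by
  have h0 : rl S ((0, 1) : LL2 ι) = 1 := by
    rw [rl]
    simp only [dk_zero, zero_add, one_smul]
    exact blockDiagonal'_one
  have h1 := pres_of_stab (X := rl S ((0, 1) : LL2 ι)) (ε := 1)
    (by rw [h0, Matrix.mul_one, one_smul])
    (hst ((0, 1) : LL2 ι) fun i => Matrix.trace_zero _ _) (t - 1)
  have h2 : rg S 1 t = 1 + (t - 1) • rl S ((0, 1) : LL2 ι) := by
    rw [h0, rg]
    simp only [kr_one]
    have h3 : (blockDiagonal' fun c => t • (1 : Matrix (NN (S c)) (NN (S c)) ℂ)) =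
        t • (1 : Matrix (IX S) (IX S) ℂ) := by
      rw [← blockDiagonal'_one, ← blockDiagonal'_smul]
      rfl
    rw [h3, sub_smul, one_smul, add_sub_cancel]
  rwa [h2]

/-- Elementary matrices in one component. -/
theorem pres_elem2 (i : ι) {N : M2} (hN : N * N = 0) (htr : N.trace = 0) :
    Pres H (rg S (Function.update 1 i (1 + N)) 1) := by
  have h0 : rl S ((Pi.single i N, 0) : LL2 ι) * rl S ((Pi.single i N, 0) : LL2 ι) = 0 := by
    rw [rl, ← blockDiagonal'_mul]
    have h1 : (fun c => (dk (S c) (Pi.single i N) + (0 : ℂ) • 1) *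
        (dk (S c) (Pi.single i N) + (0 : ℂ) • (1 : Matrix (NN (S c)) (NN (S c)) ℂ))) = 0 := by
      funext c
      rw [zero_smul, add_zero, Pi.zero_apply]
      by_cases h : i ∈ S c
      · rw [dk_single_mem (S c) h, sl_mul, hN]
        exact sl_zero (S c) ⟨i, h⟩
      · rw [dk_single_not_mem (S c) h, Matrix.zero_mul]
    exact (congrArg _ h1).trans blockDiagonal'_zero
  have h1 := pres_of_stab (X := rl S ((Pi.single i N, 0) : LL2 ι)) (ε := 0)
    (by rw [h0, zero_smul])
    (hst ((Pi.single i N, 0) : LL2 ι) fun l => by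
      change (Pi.single (M := fun _ : ι => M2) i N l).trace = 0
      by_cases h : l = i
      · subst h
        rw [Pi.single_eq_same, htr]
      · rw [Pi.single_eq_of_ne h, Matrix.trace_zero]) 1
  have h2 : rg S (Function.update 1 i (1 + N)) 1 =
      1 + (1 : ℂ) • rl S ((Pi.single i N, 0) : LL2 ι) := by
    rw [one_smul, rg, rl, ← blockDiagonal'_one, ← blockDiagonal'_add]
    congr 1
    funext c
    rw [one_smul, Pi.add_apply, zero_smul, add_zero, Pi.one_apply]
    by_cases h : i ∈ S c
    · rw [dk_single_mem (S c) h]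
      have h3 := sl_add (S c) ⟨i, h⟩ 1 N
      rw [sl_one] at h3
      exact h3
    · rw [dk_single_not_mem (S c) h, add_zero, ← kr_one (S c)]
      ext a b
      rw [kr_apply, kr_apply]
      refine Finset.prod_congr rfl fun l _ => ?_
      rw [Function.update_of_ne (fun h' => h (by rw [← h']; exact l.2))]
  rwa [h2]

theorem pres_mul2 (i : ι) {m n : M2} (hm : Pres H (rg S (Function.update 1 i m) 1))
    (hn : Pres H (rg S (Function.update 1 i n) 1)) :
    Pres H (rg S (Function.update 1 i (m * n)) 1) := by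
  have h1 := hm.mul hn
  rw [rg_mul, mul_one] at h1
  refine (congrArg (fun x => Pres H (rg S x 1)) ?_).mp h1
  funext l
  rw [Pi.mul_apply]
  by_cases h : l = i
  · subst h
    rw [Function.update_self, Function.update_self, Function.update_self]
  · rw [Function.update_of_ne h, Function.update_of_ne h, Function.update_of_ne h, Pi.one_apply,
      mul_one]

/-- The special linear group in one component. -/
theorem pres_sl2 (i : ι) {m : M2} (hm : m.det = 1) :
    Pres H (rg S (Function.update 1 i m) 1) := by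
  have hu : ∀ t : ℂ, Pres H (rg S (Function.update 1 i (!![1, t; 0, 1] : M2)) 1) := by
    intro t
    have h1 := pres_elem2 hst i (N := !![0, t; 0, 0]) (by
      ext i j
      fin_cases i <;> fin_cases j <;> simp) (by simp [Matrix.trace_fin_two])
    have h2 : (1 : M2) + !![0, t; 0, 0] = !![1, t; 0, 1] := by
      ext i j
      fin_cases i <;> fin_cases j <;> simp
    rwa [h2] at h1
  have hl : ∀ t : ℂ, Pres H (rg S (Function.update 1 i (!![1, 0; t, 1] : M2)) 1) := by
    intro t
    have h1 := pres_elem2 hst i (N := !![0, 0; t, 0]) (by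
      ext i j
      fin_cases i <;> fin_cases j <;> simp) (by simp [Matrix.trace_fin_two])
    have h2 : (1 : M2) + !![0, 0; t, 0] = !![1, 0; t, 1] := by
      ext i j
      fin_cases i <;> fin_cases j <;> simp
    rwa [h2] at h1
  have key : ∀ m : M2, m.det = 1 → m 1 0 ≠ 0 →
      Pres H (rg S (Function.update 1 i m) 1) := by
    intro m hm h0
    rw [Matrix.det_fin_two] at hm
    have h1 : m = !![1, (m 0 0 - 1) / m 1 0; 0, 1] * !![1, 0; m 1 0, 1] *
        !![1, (m 1 1 - 1) / m 1 0; 0, 1] := by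
      ext i j
      fin_cases i <;> fin_cases j
      · simp only [Fin.zero_eta, Matrix.mul_apply, Fin.sum_univ_two]
        simp
        field_simp
        ring
      · simp only [Fin.zero_eta, Fin.mk_one, Matrix.mul_apply, Fin.sum_univ_two]
        simp
        field_simp
        linear_combination (-1 : ℂ) * hm
      · simp only [Fin.zero_eta, Fin.mk_one, Matrix.mul_apply, Fin.sum_univ_two]
        simp
      · simp only [Fin.mk_one, Matrix.mul_apply, Fin.sum_univ_two]
        simp
        field_simp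
        ring
    rw [h1]
    exact pres_mul2 hst i (pres_mul2 hst i (hu _) (hl _)) (hu _)
  by_cases h0 : m 1 0 = 0
  · have h1 : m = m * !![1, 0; 1, 1] * !![1, 0; -1, 1] := by
      rw [Matrix.mul_assoc]
      have h2 : (!![1, 0; 1, 1] : M2) * !![1, 0; -1, 1] = 1 := by
        ext i j
        fin_cases i <;> fin_cases j <;> simp
      rw [h2, Matrix.mul_one]
    rw [h1]
    refine pres_mul2 hst i (key _ ?_ ?_) (hl _)
    · rw [Matrix.det_mul, hm, Matrix.det_fin_two]
      simp
    · rw [Matrix.det_fin_two, h0, mul_zero, sub_zero] at hm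
      rw [Matrix.mul_apply, Fin.sum_univ_two]
      simp only [Matrix.of_apply, Matrix.cons_val', Matrix.cons_val_zero, Matrix.cons_val_one,
        Matrix.cons_val_fin_one, mul_one, h0, zero_add]
      intro h
      rw [h, mul_zero] at hm
      exact zero_ne_one hm
  · exact key m hm h0

/-- **The whole group.** -/
theorem pres_all2 {g : ι → M2} (hg : ∀ i, (g i).det = 1) (t : ℂ) : Pres H (rg S g t) := by
  have key : ∀ E : Finset ι, Pres H (rg S (fun i => if i ∈ E then g i else 1) 1) := by
    intro E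
    induction E using Finset.induction_on with
    | empty =>
      have h1 := pres_scalar hst 1
      refine (congrArg (fun x => Pres H (rg S x 1)) ?_).mp h1
      funext i
      simp
    | insert d E hd ih =>
      have h1 := (pres_sl2 hst d (hg d)).mul ih
      rw [rg_mul, mul_one] at h1
      refine (congrArg (fun x => Pres H (rg S x 1)) ?_).mp h1
      funext l
      rw [Pi.mul_apply]
      by_cases h : l = d
      · subst h
        rw [Function.update_self, if_neg hd, if_pos (Finset.mem_insert_self _ _), mul_one]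
      · rw [Function.update_of_ne h, Pi.one_apply, one_mul]
        simp [h]
  have h1 := (key Finset.univ).mul (pres_scalar hst t)
  rw [rg_mul, one_mul, mul_one] at h1
  simpa using h1

end gen

/-- **Main theorem, general form.** -/
theorem grp_main2 [Fintype ι] (hH : AlgGrp F H) (hFK : F ≤ K)
    (hKA : ∀ x, IsAlgebraic ℚ x ↔ x ∈ K) (hy : Hy K s s' z)
    (hA : A * A' = 1) (hA' : ∀ i j, A' i j ∈ K) (hPA : rg S s z * A ∈ H)
    {g : ι → M2} (hg : ∀ i, (g i).det = 1) {t : ℂ} (ht : t ≠ 0) : rg S g t ∈ H := by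
  have hK : SqClosed K := by
    intro w hw
    rw [← hKA] at hw ⊢
    rw [← sq] at hw
    exact hw.of_pow two_pos
  have hst : ∀ X : LL2 ι, (∀ i, (X.1 i).trace = 0) → ∀ d, Stab H d (rl S X) := by
    intro X hX d
    have hS := gd_Sd2 hH hFK (fun x hx => (hKA x).2 hx) hy hA hA' hPA d
    exact (hS.all hy hFK hK (fun x hx => (hKA x).1 hx) hX X.2).2
  have hu : ∀ i, IsUnit (g i).det := fun i => by
    rw [hg]
    exact isUnit_one
  refine hH.mem_of_pres (g' := rg S (fun i => (g i)⁻¹) t⁻¹) (pres_all2 hst hg t) ?_ ?_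
  · exact rg_inv (fun i => Matrix.mul_nonsing_inv _ (hu i)) (mul_inv_cancel₀ ht)
  · exact rg_inv (fun i => Matrix.nonsing_inv_mul _ (hu i)) (inv_mul_cancel₀ ht)

end Pool.Agent.TH164.A1
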