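import Pool.Agent.TH164.A1.Grp
import Pool.Agent.TH164.A1.Alg

/-!
# The consequences of the linear independence of the periods
-/

set_option autoImplicit false
set_option linter.unusedSectionVars false
set_option linter.unusedVariables false

open Finset Matrix

namespace Pool.Agent.TH164.A1

open Pool.Agent.TH119.MX Pool.Agent.TH119.DR

variable {C ι : Type} [Fintype C] [DecidableEq C] [DecidableEq ι]

/-- The entries of the matrices `z • kr (S c) s` are linearly independent over `K`. -/
def LinK (S : C → Finset ι) (K : Subfield ℂ) (s : ι → M2) (z : ℂ) : Prop :=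
  ∀ B : ∀ c, Matrix (NN (S c)) (NN (S c)) ℂ, (∀ c a b, B c a b ∈ K) →
    ∑ c, (B c * (z • kr (S c) s)).trace = 0 → ∀ c, B c = 0

/-- Two factors can be told apart. -/
def Told (S : C → Finset ι) (i j : ι) : Prop :=
  (∃ c, i ∈ S c ∧ j ∈ S c) ∨
    ∃ c c', i ∈ S c ∧ j ∈ S c' ∧ (S c).erase i = (S c').erase j

/-- The matrix unit. -/
def u0 : M2 := !![1, 0; 0, 0]

theorem u0_mem {K : Subfield ℂ} (a b : Fin 2) : u0 a b ∈ K := by
  fin_cases a <;> fin_cases b
  · exact K.one_mem
  · exact K.zero_mem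
  · exact K.zero_mem
  · exact K.zero_mem

/-- The same matrix unit in all slots, except one. -/
def bt (S : Finset ι) (i : ι) (X : M2) : Matrix (NN S) (NN S) ℂ :=
  kr S (Function.update (fun _ => u0) i X)

theorem kr_mem {K : Subfield ℂ} (S : Finset ι) {g : ι → M2} (hg : ∀ i a b, g i a b ∈ K)
    (a b : NN S) : kr S g a b ∈ K := by
  rw [kr_apply]
  exact K.prod_mem fun i _ => hg i _ _

theorem update_mem {K : Subfield ℂ} {g : ι → M2} (hg : ∀ i a b, g i a b ∈ K) (i : ι) {X : M2}
    (hX : ∀ a b, X a b ∈ K) (l : ι) (a b : Fin 2) : Function.update g i X l a b ∈ K := by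
  by_cases h : l = i
  · subst h
    rw [Function.update_self]
    exact hX a b
  · rw [Function.update_of_ne h]
    exact hg l a b

theorem bt_mem {K : Subfield ℂ} (S : Finset ι) (i : ι) {X : M2} (hX : ∀ a b, X a b ∈ K)
    (a b : NN S) : bt S i X a b ∈ K :=
  kr_mem S (update_mem (fun _ => u0_mem) i hX) a b

/-- A product over the slots, with one slot separated. -/
theorem prod_slot (S : Finset ι) {i : ι} (hi : i ∈ S) (f : ι → ℂ) :
    ∏ l : S, f l = f i * ∏ l ∈ S.erase i, f l := by
  rw [Finset.prod_coe_sort S f, Finset.mul_prod_erase S f hi]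

theorem trace_bt (S : Finset ι) {i : ι} (hi : i ∈ S) (X : M2) (s : ι → M2) (z : ℂ) :
    (bt S i X * (z • kr S s)).trace =
      z * ((X * s i).trace * ∏ l ∈ S.erase i, (u0 * s l).trace) := by
  rw [Matrix.mul_smul, Matrix.trace_smul, smul_eq_mul, bt, kr_mul, trace_kr,
    prod_slot S hi fun l => ((Function.update (fun _ => u0) i X * s) l).trace]
  congr 2
  · rw [Pi.mul_apply, Function.update_self]
  · refine Finset.prod_congr rfl fun l hl => ?_
    rw [Pi.mul_apply, Function.update_of_ne (Finset.ne_of_mem_erase hl)]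

theorem bt_eq_zero {S : Finset ι} {i : ι} (hi : i ∈ S) {X : M2} (h : bt S i X = 0) : X = 0 := by
  ext x y
  have h1 := congrFun (congrFun h fun l => if (l : ι) = i then x else 0)
    fun l => if (l : ι) = i then y else 0
  rw [bt, kr_apply, Matrix.zero_apply] at h1
  obtain ⟨l, _, hl⟩ := Finset.prod_eq_zero_iff.1 h1
  by_cases hli : (l : ι) = i
  · rw [if_pos hli, if_pos hli, hli, Function.update_self] at hl
    exact hl
  · rw [if_neg hli, if_neg hli, Function.update_of_ne hli] at hl
    simp [u0] at hl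

variable {S : C → Finset ι} {K : Subfield ℂ} {s : ι → M2} {z : ℂ}

/-- One matrix. -/
theorem LinK.one (h : LinK S K s z) (c : C) {B : Matrix (NN (S c)) (NN (S c)) ℂ}
    (hB : ∀ a b, B a b ∈ K) (h0 : (B * (z • kr (S c) s)).trace = 0) : B = 0 := by
  have h1 := h (fun d => if hd : d = c then hd ▸ B else 0) (by
    intro d a b
    by_cases hd : d = c
    · subst hd
      rw [dif_pos rfl]
      exact hB a b
    · rw [dif_neg hd]
      exact K.zero_mem) (by
    rw [Finset.sum_eq_single c]
    · rw [dif_pos rfl]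
      exact h0
    · intro d _ hd
      rw [dif_neg hd, Matrix.zero_mul, Matrix.trace_zero]
    · intro hc
      exact absurd (Finset.mem_univ _) hc) c
  rwa [dif_pos rfl] at h1

/-- Two matrices. -/
theorem LinK.two (h : LinK S K s z) {c c' : C} (hc : c ≠ c')
    {B : Matrix (NN (S c)) (NN (S c)) ℂ} {B' : Matrix (NN (S c')) (NN (S c')) ℂ}
    (hB : ∀ a b, B a b ∈ K) (hB' : ∀ a b, B' a b ∈ K)
    (h0 : (B * (z • kr (S c) s)).trace + (B' * (z • kr (S c') s)).trace = 0) : B = 0 := by
  have h1 := h (fun d => if hd : d = c then hd ▸ B else if hd' : d = c' then hd' ▸ B' else 0) (by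
    intro d a b
    by_cases hd : d = c
    · subst hd
      rw [dif_pos rfl]
      exact hB a b
    · rw [dif_neg hd]
      by_cases hd' : d = c'
      · subst hd'
        rw [dif_pos rfl]
        exact hB' a b
      · rw [dif_neg hd']
        exact K.zero_mem) (by
    rw [Fintype.sum_eq_add c c' hc]
    · rw [dif_pos rfl, dif_neg hc.symm, dif_pos rfl]
      exact h0
    · rintro d ⟨hd, hd'⟩
      rw [dif_neg hd, dif_neg hd', Matrix.zero_mul, Matrix.trace_zero]) c
  rwa [dif_pos rfl] at h1

theorem LinK.lin2 (h : LinK S K s z) {c : C} {i : ι} (hi : i ∈ S c) : Lin2 K (s i) := by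
  intro q hq hqK ν hν h0
  have h1 := h.one c (B := bt (S c) i (vecMulVec q ν)) (bt_mem _ _ fun a b => by
    rw [vecMulVec_apply]
    exact K.mul_mem (hqK a) (hν b)) (by
    rw [trace_bt (S c) hi]
    have h2 : (vecMulVec q ν * s i).trace = 0 := by
      rw [Matrix.trace_mul_comm, ← h0]
      simp only [Matrix.trace, Matrix.diag_apply, Matrix.mul_apply, vecMulVec_apply, dotProduct,
        Matrix.mulVec, Fin.sum_univ_two]
      ring
    rw [h2, zero_mul, mul_zero])
  have h2 := bt_eq_zero hi h1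
  obtain ⟨x, hx⟩ := Function.ne_iff.1 hq
  funext y
  have h3 := congrFun (congrFun h2 x) y
  rw [vecMulVec_apply, Matrix.zero_apply] at h3
  exact (mul_eq_zero.1 h3).resolve_left hx

/-- Two slots. -/
theorem kr_two_ne {S : Finset ι} {i j : ι} (hi : i ∈ S) (hj : j ∈ S) (hij : i ≠ j)
    {X Y X' Y' : M2} (x y : Fin 2) (hX : X x y = 0) (hX' : X' x y = 1)
    (h : kr S (Function.update (Function.update (fun _ => u0) i X) j Y) =
      kr S (Function.update (Function.update (fun _ => u0) i X') j Y')) : Y' = 0 := by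
  ext v w
  have h1 := congrFun (congrFun h fun l => if (l : ι) = i then x else if (l : ι) = j then v else 0)
    fun l => if (l : ι) = i then y else if (l : ι) = j then w else 0
  rw [kr_apply, kr_apply, Finset.prod_eq_zero (Finset.mem_univ ⟨i, hi⟩)] at h1
  · obtain ⟨l, _, hl⟩ := Finset.prod_eq_zero_iff.1 h1.symm
    by_cases hli : (l : ι) = i
    · rw [if_pos hli, if_pos hli, hli, Function.update_of_ne hij, Function.update_self, hX'] at hl
      exact absurd hl one_ne_zero
    · rw [if_neg hli, if_neg hli] at hl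
      by_cases hlj : (l : ι) = j
      · rw [if_pos hlj, if_pos hlj, hlj, Function.update_self] at hl
        exact hl
      · rw [if_neg hlj, if_neg hlj, Function.update_of_ne hlj, Function.update_of_ne hli] at hl
        simp [u0] at hl
  · rw [if_pos rfl, if_pos rfl, Function.update_of_ne hij, Function.update_self, hX]

theorem prod_slot2 (S : Finset ι) {i j : ι} (hi : i ∈ S) (hj : j ∈ S) (hij : i ≠ j) (f : ι → ℂ) :
    ∏ l : S, f l = f i * f j * ∏ l ∈ (S.erase i).erase j, f l := by
  rw [prod_slot S hi f, mul_assoc, Finset.mul_prod_erase _ f (Finset.mem_erase.2 ⟨hij.symm, hj⟩)]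

theorem trace_two (S : Finset ι) {i j : ι} (hi : i ∈ S) (hj : j ∈ S) (hij : i ≠ j) (X Y : M2)
    (s : ι → M2) (z : ℂ) :
    (kr S (Function.update (Function.update (fun _ => u0) i X) j Y) * (z • kr S s)).trace =
      z * ((X * s i).trace * (Y * s j).trace * ∏ l ∈ (S.erase i).erase j, (u0 * s l).trace) := by
  rw [Matrix.mul_smul, Matrix.trace_smul, smul_eq_mul, kr_mul, trace_kr,
    prod_slot2 S hi hj hij fun l =>
      ((Function.update (Function.update (fun _ => u0) i X) j Y * s) l).trace]
  congr 2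
  · rw [Pi.mul_apply, Pi.mul_apply, Function.update_self, Function.update_of_ne hij,
      Function.update_self]
  · refine Finset.prod_congr rfl fun l hl => ?_
    have h1 := Finset.mem_erase.1 hl
    rw [Pi.mul_apply, Function.update_of_ne h1.1, Function.update_of_ne (Finset.ne_of_mem_erase h1.2)]

theorem mem_mul {K : Subfield ℂ} {X Y : M2} (hX : ∀ a b, X a b ∈ K) (hY : ∀ a b, Y a b ∈ K)
    (a b : Fin 2) : (X * Y) a b ∈ K := by
  rw [Matrix.mul_apply]
  exact K.sum_mem fun e _ => K.mul_mem (hX a e) (hY e b)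

/-- Linked factors cannot be told apart. -/
theorem LinK.link (h : LinK S K s z) (hK : SqClosed K) (hs : ∀ i, (s i).det = 1) {i j : ι}
    (hij : i ≠ j) (ht : Told S i j) {P R : M2} (hP : ∀ a b, P a b ∈ K) (hR : ∀ a b, R a b ∈ K)
    (hPd : P.det ≠ 0) (hRd : R.det ≠ 0) {c₀ : ℂ} (hc : P * s j = c₀ • (s i * R)) : False := by
  -- the inverse of `R`
  have hR'K : ∀ a b, R⁻¹ a b ∈ K := inv_mem_entries hR
  have hRR : R * R⁻¹ = 1 := Matrix.mul_nonsing_inv _ (isUnit_iff_ne_zero.2 hRd)
  have hRR' : R⁻¹ * R = 1 := Matrix.nonsing_inv_mul _ (isUnit_iff_ne_zero.2 hRd)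
  have hPP : P * P⁻¹ = 1 := Matrix.mul_nonsing_inv _ (isUnit_iff_ne_zero.2 hPd)
  have h1 : P * s j * R⁻¹ = c₀ • s i := by
    rw [hc, Matrix.smul_mul, Matrix.mul_assoc, hRR, Matrix.mul_one]
  -- the exchange of traces
  have key : ∀ Y : M2, ((R⁻¹ * Y * P) * s j).trace = c₀ * (Y * s i).trace := by
    intro Y
    have h2 : (R⁻¹ * Y * P) * s j = R⁻¹ * (Y * (P * s j)) := by simp only [Matrix.mul_assoc]
    rw [h2, Matrix.trace_mul_comm, Matrix.mul_assoc, h1, Matrix.mul_smul, Matrix.trace_smul,
      smul_eq_mul]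
  have hzero : ∀ Y : M2, R⁻¹ * Y * P = 0 → Y = 0 := by
    intro Y hY
    calc Y = R * (R⁻¹ * Y * P) * P⁻¹ := by
            simp only [Matrix.mul_assoc]
            rw [hPP, Matrix.mul_one, ← Matrix.mul_assoc, hRR, Matrix.one_mul]
      _ = 0 := by rw [hY, Matrix.mul_zero, Matrix.zero_mul]
  have hmem : ∀ Y : M2, (∀ a b, Y a b ∈ K) → ∀ a b, (R⁻¹ * Y * P) a b ∈ K := fun Y hY =>
    mem_mul (mem_mul hR'K hY) hP
  have hu0 : u0 ≠ 0 := by
    intro h0
    have := congrFun (congrFun h0 0) 0
    simp [u0] at this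
  rcases ht with ⟨c, hi, hj⟩ | ⟨c, c', hi, hj, he⟩
  · -- both in one piece
    set X : M2 := u0 with hX
    set Y : M2 := !![0, 1; 0, 0] with hY
    have hYK : ∀ a b, Y a b ∈ K := by
      intro a b
      fin_cases a <;> fin_cases b
      · exact K.zero_mem
      · exact K.one_mem
      · exact K.zero_mem
      · exact K.zero_mem
    have h2 := h.one c (B := kr (S c) (Function.update (Function.update (fun _ => u0) i X) j
      (R⁻¹ * Y * P)) - kr (S c) (Function.update (Function.update (fun _ => u0) i Y) j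
      (R⁻¹ * X * P))) (fun a b => by
        rw [Matrix.sub_apply]
        refine K.sub_mem (kr_mem _ (update_mem (update_mem (fun _ => u0_mem) _ u0_mem) _
          (hmem _ hYK)) _ _) (kr_mem _ (update_mem (update_mem (fun _ => u0_mem) _ hYK) _
          (hmem _ u0_mem)) _ _)) (by
      rw [Matrix.sub_mul, Matrix.trace_sub, trace_two (S c) hi hj hij, trace_two (S c) hi hj hij,
        key, key]
      ring)
    have h3 := kr_two_ne hi hj hij 0 1 (by simp [hX, u0]) (by simp [hY]) (sub_eq_zero.1 h2)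
    exact hu0 (hzero _ h3)
  · -- in two pieces which differ only by them
    have hcc : c ≠ c' := by
      rintro rfl
      have h2 : j ∈ (S c).erase i := Finset.mem_erase.2 ⟨hij.symm, hj⟩
      rw [he] at h2
      exact Finset.notMem_erase _ _ h2
    have hcK : c₀ ∈ K := by
      apply hK
      have h2 := congrArg Matrix.det h1
      rw [det_mul, det_mul, hs, mul_one, Matrix.det_smul, hs, mul_one, Fintype.card_fin] at h2
      have h3 : ∀ M : M2, (∀ a b, M a b ∈ K) → M.det ∈ K := by
        intro M hM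
        rw [Matrix.det_fin_two]
        exact K.sub_mem (K.mul_mem (hM _ _) (hM _ _)) (K.mul_mem (hM _ _) (hM _ _))
      rw [← sq, ← h2]
      exact K.mul_mem (h3 _ hP) (h3 _ hR'K)
    have h2 := h.two hcc.symm (B := bt (S c') j (R⁻¹ * u0 * P)) (B' := bt (S c) i ((-c₀) • u0))
      (bt_mem _ _ (hmem _ u0_mem)) (bt_mem _ _ fun a b => by
        rw [Matrix.smul_apply, smul_eq_mul]
        exact K.mul_mem (K.neg_mem hcK) (u0_mem a b)) (by
      rw [trace_bt (S c') hj, trace_bt (S c) hi, key, he, Matrix.smul_mul, Matrix.trace_smul,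
        smul_eq_mul]
      ring)
    exact hu0 (hzero _ (bt_eq_zero hj h2))

/-- **The hypotheses of the main theorem.** -/
theorem LinK.hy (h : LinK S K s z) (hK : SqClosed K) (hs : ∀ i, (s i).det = 1)
    (hcov : ∀ i, ∃ c, i ∈ S c) (hsep : ∀ i j, i ≠ j → Told S i j) (hz : ¬ IsAlgebraic ℚ z) :
    Hy K s (fun i => (s i)⁻¹) z where
  ss' i := Matrix.mul_nonsing_inv _ (by rw [hs]; exact isUnit_one)
  s's i := Matrix.nonsing_inv_mul _ (by rw [hs]; exact isUnit_one)
  det := hs
  z0 := by
    rintro rfl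
    exact hz isAlgebraic_zero
  trz := hz
  lin i := by
    obtain ⟨c, hc⟩ := hcov i
    exact h.lin2 hc
  link i j hij P R hP hR hPd hRd c₀ hc := h.link hK hs hij (hsep i j hij) hP hR hPd hRd hc

end Pool.Agent.TH164.A1
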