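import Mathlib
import Pool.Agent.TH119.MX.Sl2

/-!
# Kronecker products of two by two matrices
-/

set_option autoImplicit false

open Finset Matrix

namespace Pool.Agent.TH164.A1

open Pool.Agent.TH119.MX (M2)

set_option linter.unusedSectionVars false
set_option linter.unusedVariables false

variable {ι : Type} [DecidableEq ι]

/-- The index set of the Kronecker product over `S`. -/
abbrev NN (S : Finset ι) : Type := S → Fin 2

/-- The Kronecker product of the matrices `g i`, `i ∈ S`. -/
def kr (S : Finset ι) (g : ι → M2) : Matrix (NN S) (NN S) ℂ :=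
  Matrix.of fun a b => ∏ i : S, g i (a i) (b i)

variable (S : Finset ι)

theorem kr_apply (g : ι → M2) (a b : NN S) : kr S g a b = ∏ i : S, g i (a i) (b i) := rfl

theorem kr_mul (g h : ι → M2) : kr S g * kr S h = kr S (g * h) := by
  ext a b
  rw [Matrix.mul_apply, kr_apply]
  simp only [Pi.mul_apply, Matrix.mul_apply, kr_apply]
  rw [Finset.prod_univ_sum, Fintype.piFinset_univ]
  refine Finset.sum_congr rfl fun e _ => ?_
  rw [← Finset.prod_mul_distrib]

theorem kr_one : kr S (1 : ι → M2) = 1 := by
  ext a b
  rw [kr_apply]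
  by_cases h : a = b
  · subst h
    rw [Matrix.one_apply_eq]
    exact Finset.prod_eq_one fun i _ => by rw [Pi.one_apply, Matrix.one_apply_eq]
  · rw [Matrix.one_apply_ne h]
    obtain ⟨i, hi⟩ := Function.ne_iff.1 h
    exact Finset.prod_eq_zero (mem_univ i) (by rw [Pi.one_apply, Matrix.one_apply_ne hi])

theorem kr_update (g : ι → M2) (i : S) (y : M2) (a b : NN S) :
    kr S (Function.update g i y) a b =
      y (a i) (b i) * ∏ l ∈ univ.erase i, g l (a l) (b l) := by
  rw [kr_apply, ← Finset.mul_prod_erase _ _ (mem_univ i), Function.update_self]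
  congr 1
  refine Finset.prod_congr rfl fun l hl => ?_
  rw [Function.update_of_ne fun h => (mem_erase.1 hl).1 (Subtype.ext h)]

theorem kr_update_add (g : ι → M2) (i : S) (x y : M2) :
    kr S (Function.update g i (x + y)) =
      kr S (Function.update g i x) + kr S (Function.update g i y) := by
  ext a b
  rw [Matrix.add_apply, kr_update, kr_update, kr_update, Matrix.add_apply, add_mul]

theorem kr_update_smul (g : ι → M2) (i : S) (c : ℂ) (y : M2) :
    kr S (Function.update g i (c • y)) = c • kr S (Function.update g i y) := by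
  ext a b
  rw [Matrix.smul_apply, kr_update, kr_update, Matrix.smul_apply, smul_eq_mul, smul_eq_mul,
    mul_assoc]

theorem kr_update_zero (g : ι → M2) (i : S) : kr S (Function.update g i 0) = 0 := by
  ext a b
  rw [kr_update, Matrix.zero_apply, Matrix.zero_apply, zero_mul]

theorem kr_update_sub (g : ι → M2) (i : S) (x y : M2) :
    kr S (Function.update g i (x - y)) =
      kr S (Function.update g i x) - kr S (Function.update g i y) := by
  ext a b
  rw [Matrix.sub_apply, kr_update, kr_update, kr_update, Matrix.sub_apply, sub_mul]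

theorem kr_smul_one (g : ι → M2) (i : S) : kr S (Function.update g i (g i)) = kr S g := by
  rw [Function.update_eq_self]

theorem kr_map_der (δ : Derivation ℚ ℂ ℂ) (g : ι → M2) :
    (kr S g).map δ = ∑ i : S, kr S (Function.update g i ((g i).map δ)) := by
  ext a b
  rw [Matrix.map_apply, kr_apply, Matrix.sum_apply]
  simp only [kr_update, Matrix.map_apply]
  have h1 : ∀ E : Finset S, δ (∏ i ∈ E, g i (a i) (b i)) =
      ∑ i ∈ E, δ (g i (a i) (b i)) * ∏ l ∈ E.erase i, g l (a l) (b l) := by
    intro E
    induction E using Finset.induction_on with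
    | empty => rw [prod_empty, sum_empty, Derivation.map_one_eq_zero]
    | insert j E hj ih =>
      rw [prod_insert hj, Derivation.leibniz, ih, sum_insert hj, erase_insert hj, smul_eq_mul,
        smul_eq_mul, add_comm, mul_comm (δ _)]
      congr 1
      rw [Finset.mul_sum]
      refine Finset.sum_congr rfl fun i hi => ?_
      have hij : i ≠ j := by
        rintro rfl
        exact hj hi
      rw [erase_insert_of_ne hij.symm, prod_insert (fun h => hj (mem_of_mem_erase h))]
      ring
  exact h1 univ

/-- One factor. -/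
def sl (S : Finset ι) (i : ι) (y : M2) : Matrix (NN S) (NN S) ℂ :=
  kr S (Function.update 1 i y)

theorem sl_mul_kr (g : ι → M2) (i : S) (y : M2) :
    sl S i y * kr S g = kr S (Function.update g i (y * g i)) := by
  rw [sl, kr_mul]
  congr 1
  funext l
  rw [Pi.mul_apply]
  by_cases h : l = i
  · subst h
    rw [Function.update_self, Function.update_self]
  · rw [Function.update_of_ne h, Function.update_of_ne h, Pi.one_apply, one_mul]

theorem kr_mul_sl (g : ι → M2) (i : S) (y : M2) :
    kr S g * sl S i y = kr S (Function.update g i (g i * y)) := by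
  rw [sl, kr_mul]
  congr 1
  funext l
  rw [Pi.mul_apply]
  by_cases h : l = i
  · subst h
    rw [Function.update_self, Function.update_self]
  · rw [Function.update_of_ne h, Function.update_of_ne h, Pi.one_apply, mul_one]

theorem sl_comm {i j : ι} (h : i ≠ j) (x y : M2) : sl S i x * sl S j y = sl S j y * sl S i x := by
  rw [sl, sl, kr_mul, kr_mul]
  congr 1
  funext l
  rw [Pi.mul_apply, Pi.mul_apply]
  by_cases h1 : l = i
  · subst h1
    rw [Function.update_self, Function.update_of_ne h, Pi.one_apply, mul_one, one_mul]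
  · rw [Function.update_of_ne h1, Pi.one_apply, mul_one, one_mul]

theorem sl_mul (i : ι) (x y : M2) : sl S i x * sl S i y = sl S i (x * y) := by
  rw [sl, sl, kr_mul, sl]
  congr 1
  funext l
  rw [Pi.mul_apply]
  by_cases h1 : l = i
  · subst h1
    rw [Function.update_self, Function.update_self, Function.update_self]
  · rw [Function.update_of_ne h1, Function.update_of_ne h1, Function.update_of_ne h1,
      Pi.one_apply, mul_one]

theorem sl_add (i : S) (x y : M2) : sl S i (x + y) = sl S i x + sl S i y :=
  kr_update_add S 1 i x y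

theorem sl_sub (i : S) (x y : M2) : sl S i (x - y) = sl S i x - sl S i y :=
  kr_update_sub S 1 i x y

theorem sl_smul (i : S) (c : ℂ) (y : M2) : sl S i (c • y) = c • sl S i y :=
  kr_update_smul S 1 i c y

theorem sl_zero (i : S) : sl S i 0 = 0 := kr_update_zero S 1 i

theorem sl_one (i : ι) : sl S i 1 = 1 := by
  have h1 : Function.update (1 : ι → M2) i 1 = 1 := Function.update_eq_self i (1 : ι → M2)
  rw [sl, h1, kr_one]

theorem sl_map {F : Subfield ℂ} (f : ℂ →ₗ[F] ℂ) (i : S) (y : M2) :
    (sl S i y).map f = sl S i (y.map f) := by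
  ext a b
  rw [sl, sl, Matrix.map_apply, kr_update, kr_update, Matrix.map_apply]
  by_cases h : ∃ l ∈ univ.erase i, (1 : ι → M2) l (a l) (b l) = 0
  · obtain ⟨l, hl, h0⟩ := h
    rw [Finset.prod_eq_zero hl h0, mul_zero, mul_zero, map_zero]
  · push Not at h
    have h1 : ∏ l ∈ univ.erase i, (1 : ι → M2) l (a l) (b l) = 1 := by
      refine Finset.prod_eq_one fun l hl => ?_
      have h2 := h l hl
      rw [Pi.one_apply, Matrix.one_apply] at h2 ⊢
      split_ifs with h3
      · rfl
      · rw [if_neg h3] at h2
        exact absurd rfl h2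
    rw [h1, mul_one, mul_one]

/-- The action of the Lie algebra. -/
def dk (S : Finset ι) (x : ι → M2) : Matrix (NN S) (NN S) ℂ := ∑ i : S, sl S i (x i)

theorem dk_add (x y : ι → M2) : dk S (x + y) = dk S x + dk S y := by
  rw [dk, dk, dk, ← Finset.sum_add_distrib]
  exact Finset.sum_congr rfl fun i _ => sl_add S i _ _

theorem dk_smul (c : ℂ) (x : ι → M2) : dk S (c • x) = c • dk S x := by
  rw [dk, dk, Finset.smul_sum]
  exact Finset.sum_congr rfl fun i _ => sl_smul S i _ _

theorem dk_zero : dk S (0 : ι → M2) = 0 := by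
  rw [dk]
  exact Finset.sum_eq_zero fun i _ => sl_zero S i

theorem dk_map {F : Subfield ℂ} (f : ℂ →ₗ[F] ℂ) (x : ι → M2) :
    (dk S x).map f = dk S (fun i => (x i).map f) := by
  ext a b
  rw [Matrix.map_apply, dk, dk, Matrix.sum_apply, Matrix.sum_apply, map_sum]
  refine Finset.sum_congr rfl fun i _ => ?_
  have h := congrFun (congrFun (sl_map S f i (x i)) a) b
  rw [← h, Matrix.map_apply]

theorem dk_comm (x y : ι → M2) :
    dk S x * dk S y - dk S y * dk S x = dk S (fun i => x i * y i - y i * x i) := by
  rw [dk, dk, Finset.sum_mul_sum, Finset.sum_mul_sum, Finset.sum_comm (s := univ) (t := univ)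
    (f := fun i j : S => sl S i (y i) * sl S j (x j)), ← Finset.sum_sub_distrib, dk]
  refine Finset.sum_congr rfl fun i _ => ?_
  rw [← Finset.sum_sub_distrib, Finset.sum_eq_single i]
  · rw [sl_mul, sl_mul, sl_sub]
  · intro j _ hj
    rw [sl_comm S (fun h => hj (Subtype.ext h).symm), sub_self]
  · intro h
    exact absurd (mem_univ i) h

theorem dk_mul_kr (x g : ι → M2) :
    dk S x * kr S g = ∑ i : S, kr S (Function.update g i (x i * g i)) := by
  rw [dk, Finset.sum_mul]
  exact Finset.sum_congr rfl fun i _ => sl_mul_kr S g i _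

theorem dk_conj {g g' : ι → M2} (h : ∀ i, g i * g' i = 1) (x : ι → M2) :
    kr S g * dk S x * kr S g' = dk S (fun i => g i * x i * g' i) := by
  rw [dk, Finset.mul_sum, Finset.sum_mul, dk]
  refine Finset.sum_congr rfl fun i _ => ?_
  rw [kr_mul_sl, kr_mul, sl]
  congr 1
  funext l
  rw [Pi.mul_apply]
  by_cases h1 : l = i
  · subst h1
    rw [Function.update_self, Function.update_self]
  · rw [Function.update_of_ne h1, Function.update_of_ne h1, h, Pi.one_apply]

/-- The logarithmic derivative. -/
theorem kr_der (δ : Derivation ℚ ℂ ℂ) {g g' : ι → M2} (h : ∀ i, g i * g' i = 1)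
    (h' : ∀ i, g' i * g i = 1) :
    (kr S g).map δ * kr S g' = dk S (fun i => (g i).map δ * g' i) := by
  rw [kr_map_der, Finset.sum_mul, dk]
  refine Finset.sum_congr rfl fun i _ => ?_
  rw [kr_mul, sl]
  congr 1
  funext l
  rw [Pi.mul_apply]
  by_cases h1 : l = i
  · subst h1
    rw [Function.update_self, Function.update_self]
  · rw [Function.update_of_ne h1, Function.update_of_ne h1, h, Pi.one_apply]

theorem dk_single_mem {i : ι} (hi : i ∈ S) (y : M2) :
    dk S (Pi.single i y) = sl S i y := by
  rw [dk, Finset.sum_eq_single ⟨i, hi⟩]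
  · rw [Pi.single_eq_same]
  · intro l _ hl
    rw [Pi.single_eq_of_ne (fun h => hl (Subtype.ext h)), sl_zero]
  · intro h
    exact absurd (mem_univ _) h

theorem dk_single_not_mem {i : ι} (hi : i ∉ S) (y : M2) : dk S (Pi.single i y) = 0 := by
  rw [dk]
  refine Finset.sum_eq_zero fun l _ => ?_
  rw [Pi.single_eq_of_ne (fun h => hi (by rw [← h]; exact l.2)), sl_zero]

theorem trace_kr (g : ι → M2) : (kr S g).trace = ∏ i : S, (g i).trace := by
  rw [Matrix.trace]
  simp only [Matrix.diag_apply, kr_apply, Matrix.trace]
  rw [Finset.prod_univ_sum, Fintype.piFinset_univ]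

end Pool.Agent.TH164.A1
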