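import Pool.Agent.TH164.A1.Kron
import Pool.Agent.TH119.MX.Mat
import Pool.Agent.TH119.MX.Pure2

/-!
# Lie algebras which are rational on both sides of a family of two by two period matrices
-/

set_option autoImplicit false
set_option linter.unusedSectionVars false
set_option linter.unusedVariables false

open Finset Matrix

namespace Pool.Agent.TH164.A1

open Pool.Agent.TH119.MX Pool.Agent.TH119.DR

variable {ι : Type} [DecidableEq ι]

/-- The Lie algebra acting on rank two pieces, with homotheties. -/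
abbrev LL2 (ι : Type) : Type := (ι → M2) × ℂ

/-- The properties of the Lie algebra. -/
structure Gd (F K : Subfield ℂ) (s s' : ι → M2) (z : ℂ) (T : Submodule ℂ (LL2 ι)) : Prop where
  tr : ∀ X ∈ T, ∀ i, (X.1 i).trace = 0
  br : ∀ X ∈ T, ∀ Y ∈ T, ((fun i => X.1 i * Y.1 i - Y.1 i * X.1 i, 0) : LL2 ι) ∈ T
  hF : ∀ f : ℂ →ₗ[F] ℂ, ∀ X ∈ T, ((fun i => (X.1 i).map f, f X.2) : LL2 ι) ∈ T
  hK : ∀ f : ℂ →ₗ[K] ℂ, ∀ X ∈ T,
    ((fun i => s i * (s' i * X.1 i * s i).map f * s' i, f X.2) : LL2 ι) ∈ T
  der : ∀ δ : Derivation ℚ ℂ ℂ, ((fun i => (s i).map δ * s' i, δ z / z) : LL2 ι) ∈ T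

/-- The hypotheses on the period matrices. -/
structure Hy (K : Subfield ℂ) (s s' : ι → M2) (z : ℂ) : Prop where
  ss' : ∀ i, s i * s' i = 1
  s's : ∀ i, s' i * s i = 1
  det : ∀ i, (s i).det = 1
  z0 : z ≠ 0
  trz : ¬ IsAlgebraic ℚ z
  lin : ∀ i, Lin2 K (s i)
  link : ∀ i j, i ≠ j → ∀ (P R : M2), (∀ a b, P a b ∈ K) → (∀ a b, R a b ∈ K) → P.det ≠ 0 →
    R.det ≠ 0 → ∀ c : ℂ, P * s j = c • (s i * R) → False

/-- The standard matrices. -/
def me : M2 := !![0, 1; 0, 0]
/-- The standard matrices. -/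
def mf : M2 := !![0, 0; 1, 0]
/-- The standard matrices. -/
def mh : M2 := !![1, 0; 0, -1]

theorem tr_me : me.trace = 0 := by simp [me, Matrix.trace_fin_two]
theorem tr_mf : mf.trace = 0 := by simp [mf, Matrix.trace_fin_two]
theorem tr_mh : mh.trace = 0 := by simp [mh, Matrix.trace_fin_two]

theorem me_mf : me * mf - mf * me = mh := by
  ext i j
  fin_cases i <;> fin_cases j <;> simp [me, mf, mh]

theorem mh_me : mh * me - me * mh = (2 : ℂ) • me := by
  ext i j
  fin_cases i <;> fin_cases j <;> simp [me, mh]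
  norm_num

theorem mh_mf : mh * mf - mf * mh = (-2 : ℂ) • mf := by
  ext i j
  fin_cases i <;> fin_cases j <;> simp [mf, mh]
  norm_num

theorem eq_std {x : M2} (hx : x.trace = 0) :
    x = x 0 0 • mh + x 0 1 • me + x 1 0 • mf := by
  rw [Matrix.trace_fin_two] at hx
  have h1 : x 1 1 = -x 0 0 := by linear_combination hx
  ext i j
  fin_cases i <;> fin_cases j <;> simp [me, mf, mh, h1]

theorem me_ne : me ≠ 0 := by
  intro h
  have := congrFun (congrFun h 0) 1
  simp [me] at this

variable {F K : Subfield ℂ}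

/-- A triple in `sl₂` is conjugate to the standard one, over the same field. -/
theorem exists_conj {E G H : M2} (hE : ∀ a b, E a b ∈ K) (hG : ∀ a b, G a b ∈ K)
    (tE : E.trace = 0) (tG : G.trace = 0) (hEG : E * G - G * E = H)
    (hHE : H * E - E * H = (2 : ℂ) • E) (hHG : H * G - G * H = (-2 : ℂ) • G) (hE0 : E ≠ 0) :
    ∃ T : M2, (∀ a b, T a b ∈ K) ∧ T.det ≠ 0 ∧ T * me = E * T ∧ T * mf = G * T ∧
      T * mh = H * T := by
  have hG0 : G ≠ 0 := by
    rintro rfl
    rw [Matrix.mul_zero, Matrix.zero_mul, sub_zero] at hEG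
    rw [← hEG, Matrix.mul_zero, Matrix.zero_mul, sub_zero] at hHE
    exact hE0 ((smul_eq_zero.1 hHE.symm).resolve_left two_ne_zero)
  -- squares of traceless matrices
  have hsq : ∀ x : M2, x.trace = 0 → x * x = ((x * x).trace / 2) • (1 : M2) := by
    intro x hx
    rw [Matrix.trace_fin_two] at hx
    have h1 : x 1 1 = -x 0 0 := by linear_combination hx
    ext i j
    fin_cases i <;> fin_cases j <;>
      simp [Matrix.mul_apply, Fin.sum_univ_two, Matrix.trace_fin_two, h1] <;> ring
  have htc : ∀ a b : M2, (a * b - b * a).trace = 0 := fun a b => by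
    rw [Matrix.trace_sub, Matrix.trace_mul_comm, sub_self]
  have hEE : E * E = 0 := by
    have h1 : (E * E).trace = 0 := by
      have h2 : (2 : ℂ) • (E * E) = (H * E) * E - E * (H * E) := by
        rw [← Matrix.smul_mul, ← hHE, Matrix.sub_mul]
        simp only [Matrix.mul_assoc]
      have h3 := congrArg Matrix.trace h2
      rw [htc, Matrix.trace_smul, smul_eq_mul] at h3
      exact (mul_eq_zero.1 h3).resolve_left two_ne_zero
    rw [hsq E tE, h1, zero_div, zero_smul]
  have hGG : G * G = 0 := by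
    have h1 : (G * G).trace = 0 := by
      have h2 : (-2 : ℂ) • (G * G) = (H * G) * G - G * (H * G) := by
        rw [← Matrix.smul_mul, ← hHG, Matrix.sub_mul]
        simp only [Matrix.mul_assoc]
      have h3 := congrArg Matrix.trace h2
      rw [htc, Matrix.trace_smul, smul_eq_mul] at h3
      exact (mul_eq_zero.1 h3).resolve_left (by norm_num)
    rw [hsq G tG, h1, zero_div, zero_smul]
  -- `H E = E`
  have hHE' : H * E = E := by
    have h1 : E * H = -(H * E) := by
      have h2 : E * (G * E) = -(E * H) := by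
        rw [← hEG, Matrix.mul_sub, ← Matrix.mul_assoc E E G, hEE, Matrix.zero_mul, zero_sub,
          neg_neg]
      have h3 : (E * G) * E = H * E := by
        rw [← hEG, Matrix.sub_mul, Matrix.mul_assoc G E E, hEE, Matrix.mul_zero, sub_zero]
      rw [Matrix.mul_assoc, h2] at h3
      rw [← h3, neg_neg]
    rw [h1, sub_neg_eq_add, ← two_smul ℂ] at hHE
    exact smul_right_injective _ (two_ne_zero (α := ℂ)) hHE
  have hHG' : H * G = -G := by
    have h1 : G * H = -(H * G) := by
      have h2 : (G * E) * G = -(H * G) := by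
        rw [← hEG, Matrix.sub_mul, Matrix.mul_assoc E G G, hGG, Matrix.mul_zero, zero_sub,
          neg_neg]
      have h3 : G * (E * G) = G * H := by
        rw [← hEG, Matrix.mul_sub, ← Matrix.mul_assoc G G E, hGG, Matrix.zero_mul, sub_zero]
      rw [← h3, ← Matrix.mul_assoc, h2]
    rw [h1, sub_neg_eq_add, ← two_smul ℂ] at hHG
    have h4 : (2 : ℂ) • (H * G) = (2 : ℂ) • (-G) := by rw [hHG, smul_neg, neg_smul]
    exact smul_right_injective _ (two_ne_zero (α := ℂ)) h4
  -- the vector `u`
  obtain ⟨j, hj⟩ : ∃ j, G.col j ≠ 0 := by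
    by_contra hcon
    push Not at hcon
    apply hG0
    ext a b
    exact congrFun (hcon b) a
  set u : Fin 2 → ℂ := G.col j with hu
  have hu' : u = G *ᵥ Pi.single j 1 := by rw [Matrix.mulVec_single_one]
  have hGu : G *ᵥ u = 0 := by rw [hu', Matrix.mulVec_mulVec, hGG, Matrix.zero_mulVec]
  have hHu : H *ᵥ u = -u := by
    rw [hu', Matrix.mulVec_mulVec, hHG', Matrix.neg_mulVec]
  set v : Fin 2 → ℂ := E *ᵥ u with hv
  have hEv : E *ᵥ v = 0 := by rw [hv, Matrix.mulVec_mulVec, hEE, Matrix.zero_mulVec]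
  have hHv : H *ᵥ v = v := by rw [hv, Matrix.mulVec_mulVec, hHE']
  have hGv : G *ᵥ v = u := by
    have h1 : G * E = E * G - H := by rw [← hEG, sub_sub_cancel]
    rw [hv, Matrix.mulVec_mulVec, h1, Matrix.sub_mulVec, hHu, ← Matrix.mulVec_mulVec, hGu,
      Matrix.mulVec_zero, zero_sub, neg_neg]
  have huK : ∀ a, u a ∈ K := fun a => hG a j
  have hvK : ∀ a, v a ∈ K := by
    intro a
    rw [hv, Matrix.mulVec, dotProduct]
    exact K.sum_mem fun b _ => K.mul_mem (hE a b) (huK b)
  obtain ⟨T, hT⟩ : ∃ T : M2, T = Matrix.of ![fun b => if b = 0 then v 0 else u 0,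
      fun b => if b = 0 then v 1 else u 1] := ⟨_, rfl⟩
  have hT0 : ∀ a, T a 0 = v a := by
    intro a
    rw [hT]
    fin_cases a <;> simp
  have hT1 : ∀ a, T a 1 = u a := by
    intro a
    rw [hT]
    fin_cases a <;> simp
  have hmul : ∀ (X : M2) (a : Fin 2), (X * T) a 0 = (X *ᵥ v) a ∧ (X * T) a 1 = (X *ᵥ u) a := by
    intro X a
    rw [Matrix.mul_apply, Matrix.mul_apply]
    simp only [hT0, hT1]
    exact ⟨rfl, rfl⟩
  refine ⟨T, ?_, ?_, ?_, ?_, ?_⟩
  · intro a b
    fin_cases b
    · rw [show (⟨0, by norm_num⟩ : Fin 2) = 0 from rfl]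
      change T a 0 ∈ K
      rw [hT0]
      exact hvK a
    · change T a 1 ∈ K
      rw [hT1]
      exact huK a
  · intro hdet
    obtain ⟨w, hw0, hw⟩ := Matrix.exists_mulVec_eq_zero_iff.2 hdet
    have h1 : w 0 • v + w 1 • u = 0 := by
      funext a
      have h2 := congrFun hw a
      rw [Matrix.mulVec, dotProduct, Fin.sum_univ_two, hT0, hT1] at h2
      rw [Pi.add_apply, Pi.smul_apply, Pi.smul_apply, smul_eq_mul, smul_eq_mul, mul_comm (w 0),
        mul_comm (w 1)]
      exact h2
    have h3 := congrArg (fun x => G *ᵥ x) h1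
    simp only [Matrix.mulVec_add, Matrix.mulVec_smul, hGv, hGu, smul_zero, add_zero,
      Matrix.mulVec_zero] at h3
    have h4 : w 0 = 0 := (smul_eq_zero.1 h3).resolve_right hj
    rw [h4, zero_smul, zero_add] at h1
    have h5 : w 1 = 0 := (smul_eq_zero.1 h1).resolve_right hj
    apply hw0
    funext a
    fin_cases a
    · exact h4
    · exact h5
  · ext a b
    fin_cases b
    · have h1 := (hmul E a).1
      rw [hEv] at h1
      change (T * me) a 0 = (E * T) a 0
      rw [h1, Matrix.mul_apply, Fin.sum_univ_two]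
      simp [me]
    · have h1 := (hmul E a).2
      change (T * me) a 1 = (E * T) a 1
      rw [h1, Matrix.mul_apply, Fin.sum_univ_two, ← hv, ← hT0 a]
      simp [me]
  · ext a b
    fin_cases b
    · have h1 := (hmul G a).1
      rw [hGv] at h1
      change (T * mf) a 0 = (G * T) a 0
      rw [h1, Matrix.mul_apply, Fin.sum_univ_two, ← hT1 a]
      simp [mf]
    · have h1 := (hmul G a).2
      rw [hGu] at h1
      change (T * mf) a 1 = (G * T) a 1
      rw [h1, Matrix.mul_apply, Fin.sum_univ_two]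
      simp [mf]
  · ext a b
    fin_cases b
    · have h1 := (hmul H a).1
      rw [hHv] at h1
      change (T * mh) a 0 = (H * T) a 0
      rw [h1, Matrix.mul_apply, Fin.sum_univ_two, ← hT0 a]
      simp [mh]
    · have h1 := (hmul H a).2
      rw [hHu] at h1
      change (T * mh) a 1 = (H * T) a 1
      rw [h1, Matrix.mul_apply, Fin.sum_univ_two, Pi.neg_apply, ← hT1 a]
      simp [mh]

section main

variable {s s' : ι → M2} {z : ℂ} {T : Submodule ℂ (LL2 ι)}

/-- The projection to a component. -/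
def pr (i : ι) : LL2 ι →ₗ[ℂ] M2 where
  toFun X := X.1 i
  map_add' _ _ := rfl
  map_smul' _ _ := rfl

theorem pr_apply (i : ι) (X : LL2 ι) : pr i X = X.1 i := rfl

theorem Gd.surj (hT : Gd F K s s' z T) (hy : Hy K s s' z) (hFK : F ≤ K) (hK : SqClosed K)
    (hKA : ∀ x, IsAlgebraic ℚ x → x ∈ K) (i : ι) {x : M2} (hx : x.trace = 0) :
    ∃ X ∈ T, X.1 i = x := by
  have h1 : x ∈ T.map (pr i) := by
    refine sl2_full hFK hK hKA (hy.ss' i) (hy.s's i) (hy.lin i) (T.map (pr i)) ?_ ?_ ?_ ?_ hx
    · rintro _ ⟨X, hX, rfl⟩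
      exact hT.tr X hX i
    · rintro f _ ⟨X, hX, rfl⟩
      exact ⟨_, hT.hF f X hX, rfl⟩
    · rintro f _ ⟨X, hX, rfl⟩
      exact ⟨_, hT.hK f X hX, rfl⟩
    · intro δ
      have h2 := hT.der δ
      have h3 := hT.tr _ h2 i
      refine ⟨_, h2, ?_⟩
      rw [pr_apply]
      change (s i).map δ * s' i = _
      change ((s i).map δ * s' i).trace = 0 at h3
      rw [h3, zero_div, zero_smul, sub_zero]
  obtain ⟨X, hX, h⟩ := h1
  exact ⟨X, hX, h⟩

/-- A complex number which is fixed by all retractions is in `K`. -/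
theorem mem_of_fixed {K : Subfield ℂ} {w : ℂ} (h : ∀ f : ℂ →ₗ[K] ℂ, f 1 = 1 → f w = w) :
    w ∈ K := by
  obtain ⟨f, hf, hf1⟩ := exists_retr K
  rw [← h f hf1]
  exact hf w

theorem map_of_fix {K : Subfield ℂ} {f : ℂ →ₗ[K] ℂ} (hf : f 1 = 1) {x : M2}
    (hx : ∀ a b, x a b ∈ K) : x.map f = x := by
  ext a b
  rw [Matrix.map_apply]
  have h1 := lin_mul f (hx a b) 1
  rwa [mul_one, hf, mul_one] at h1

theorem lower_one {F K : Subfield ℂ} (hFK : F ≤ K) (f : ℂ →ₗ[K] ℂ) (x : ℂ) :
    lower hFK f x = f x := rfl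

/-- Two components which are not linked. -/
theorem Gd.pair (hT : Gd F K s s' z T) (hy : Hy K s s' z) (hFK : F ≤ K) (hK : SqClosed K)
    (hKA : ∀ x, IsAlgebraic ℚ x → x ∈ K) {i j : ι} (hij : i ≠ j) {x : M2} (hx : x.trace = 0) :
    ∃ X ∈ T, X.1 i = x ∧ X.1 j = 0 := by
  have hbr : ∀ X ∈ T, ∀ Y ∈ T, ∃ Z ∈ T, ∀ l, Z.1 l = X.1 l * Y.1 l - Y.1 l * X.1 l :=
    fun X hX Y hY => ⟨_, hT.br X hX Y hY, fun l => rfl⟩
  -- the ideal
  by_cases hid : ∃ X ∈ T, X.1 j = 0 ∧ X.1 i ≠ 0
  · obtain ⟨X, hX, hXj, hXi⟩ := hid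
    -- the subspace
    let A : Submodule ℂ M2 :=
      { carrier := {y | ∃ Y ∈ T, Y.1 i = y ∧ Y.1 j = 0}
        zero_mem' := ⟨0, T.zero_mem, rfl, rfl⟩
        add_mem' := by
          rintro a b ⟨Y, hY, h1, h2⟩ ⟨Y', hY', h1', h2'⟩
          refine ⟨Y + Y', T.add_mem hY hY', ?_, ?_⟩
          · change Y.1 i + Y'.1 i = a + b
            rw [h1, h1']
          · change Y.1 j + Y'.1 j = 0
            rw [h2, h2', add_zero]
        smul_mem' := by
          rintro c a ⟨Y, hY, h1, h2⟩
          refine ⟨c • Y, T.smul_mem c hY, ?_, ?_⟩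
          · change c • Y.1 i = c • a
            rw [h1]
          · change c • Y.1 j = 0
            rw [h2, smul_zero] }
    have hA : ∀ y ∈ A, ∀ w : M2, w.trace = 0 → w * y - y * w ∈ A := by
      rintro y ⟨Y, hY, h1, h2⟩ w hw
      obtain ⟨W, hW, hWi⟩ := hT.surj hy hFK hK hKA i hw
      obtain ⟨Z, hZ, hZl⟩ := hbr W hW Y hY
      refine ⟨Z, hZ, ?_, ?_⟩
      · rw [hZl, hWi, h1]
      · rw [hZl, h2, Matrix.mul_zero, Matrix.zero_mul, sub_zero]
    have htr := hT.tr X hX i
    have h0 : X.1 i ∈ A := ⟨X, hX, rfl, hXj⟩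
    generalize X.1 i = y at hXi htr h0
    have htc : ∀ a b : M2, (a * b - b * a).trace = 0 := fun a b => by
      rw [Matrix.trace_sub, Matrix.trace_mul_comm, sub_self]
    -- an ideal containing a nonzero element is everything
    have hme : me ∈ A := by
      have e0 := eq_std htr
      by_cases h10 : y 1 0 = 0
      · by_cases h00 : y 0 0 = 0
        · have h01 : y 0 1 ≠ 0 := by
            intro h01
            apply hXi
            rw [e0, h10, h00, h01, zero_smul, zero_smul, zero_smul, add_zero, add_zero]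
          have h1 : me = (y 0 1)⁻¹ • y := by
            rw [e0]
            rw [h10, h00, zero_smul, zero_smul, add_zero, zero_add]
            simp [smul_smul, h01, me]
          rw [h1]
          exact A.smul_mem _ h0
        · have h1 := hA y h0 me tr_me
          have h2 : me * y - y * me = (-2 * y 0 0) • me := by
            rw [e0, h10]
            ext a b
            fin_cases a <;> fin_cases b <;> simp [me, mh, mf, Matrix.mul_apply, Fin.sum_univ_two]
            ring
          rw [h2] at h1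
          have h3 := A.smul_mem (-2 * y 0 0)⁻¹ h1
          rwa [smul_smul, inv_mul_cancel₀ (mul_ne_zero (by norm_num) h00), one_smul] at h3
      · have h1 := hA _ (hA y h0 me tr_me) me tr_me
        have h2 : me * (me * y - y * me) - (me * y - y * me) * me = (-2 * y 1 0) • me := by
          rw [e0]
          ext a b
          fin_cases a <;> fin_cases b <;> simp [me, mh, mf, Matrix.mul_apply, Fin.sum_univ_two]
          ring
        rw [h2] at h1
        have h3 := A.smul_mem (-2 * y 1 0)⁻¹ h1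
        rwa [smul_smul, inv_mul_cancel₀ (mul_ne_zero (by norm_num) h10), one_smul] at h3
    have hmh : mh ∈ A := by
      have h1 := hA _ hme mf tr_mf
      have h2 : mf * me - me * mf = (-1 : ℂ) • mh := by
        rw [← me_mf, neg_smul, one_smul, neg_sub]
      rw [h2] at h1
      have h3 := A.smul_mem (-1 : ℂ) h1
      rwa [smul_smul, show (-1 : ℂ) * -1 = 1 by norm_num, one_smul] at h3
    have hmf : mf ∈ A := by
      have h1 := hA _ hmh mf tr_mf
      have h2 : mf * mh - mh * mf = (2 : ℂ) • mf := by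
        rw [← neg_sub, mh_mf, neg_smul, neg_neg]
      rw [h2] at h1
      have h3 := A.smul_mem (2 : ℂ)⁻¹ h1
      rwa [smul_smul, inv_mul_cancel₀ two_ne_zero, one_smul] at h3
    have h1 : x ∈ A := by
      rw [eq_std hx]
      exact A.add_mem (A.add_mem (A.smul_mem _ hmh) (A.smul_mem _ hme)) (A.smul_mem _ hmf)
    exact h1
  · exfalso
    push Not at hid
    have huniq : ∀ X ∈ T, ∀ Y ∈ T, X.1 j = Y.1 j → X.1 i = Y.1 i := by
      intro X hX Y hY h
      have h1 := hid (X - Y) (T.sub_mem hX hY) (by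
        change X.1 j - Y.1 j = 0
        rw [h, sub_self])
      exact sub_eq_zero.1 h1
    -- a triple which maps to the standard triple at `j`, after conjugation with `g`
    have key : ∀ (g g' : M2), g * g' = 1 → g' * g = 1 → ∀ (h h' : M2), h' * h = 1 → h * h' = 1 →
        (∀ (f : ℂ →ₗ[K] ℂ), ∀ X ∈ T, ∃ Y ∈ T, Y.1 j = g * (g' * X.1 j * g).map f * g' ∧
          Y.1 i = h * (h' * X.1 i * h).map f * h') →
        ∃ P : M2, (∀ a b, P a b ∈ K) ∧ P.det ≠ 0 ∧ ∀ X ∈ T,
          P * (g' * X.1 j * g) = (h' * X.1 i * h) * P := by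
      intro g g' hg hg' h h' hh hh' hst
      have hcj : ∀ y : M2, g' * (g * y * g') * g = y := by
        intro y
        calc g' * (g * y * g') * g = (g' * g) * y * (g' * g) := by simp only [Matrix.mul_assoc]
          _ = y := by rw [hg', Matrix.one_mul, Matrix.mul_one]
      have hch : ∀ y : M2, h' * (h * y * h') * h = y := by
        intro y
        calc h' * (h * y * h') * h = (h' * h) * y * (h' * h) := by simp only [Matrix.mul_assoc]
          _ = y := by rw [hh, Matrix.one_mul, Matrix.mul_one]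
      have htg : ∀ y : M2, y.trace = 0 → (g * y * g').trace = 0 := by
        intro y hy
        rw [Matrix.trace_mul_comm, ← Matrix.mul_assoc, hg', Matrix.one_mul, hy]
      obtain ⟨Xe, hXe, e1⟩ := hT.surj hy hFK hK hKA j (htg me tr_me)
      obtain ⟨Xf, hXf, f1⟩ := hT.surj hy hFK hK hKA j (htg mf tr_mf)
      have hrat : ∀ X ∈ T, ∀ y : M2, (∀ a b, y a b ∈ K) → X.1 j = g * y * g' →
          ∀ a b, (h' * X.1 i * h) a b ∈ K := by
        intro X hX y hyK hXj a b
        refine mem_of_fixed fun f hf => ?_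
        obtain ⟨Y, hY, hY1, hY2⟩ := hst f X hX
        have h1 : Y.1 j = X.1 j := by rw [hY1, hXj, hcj, map_of_fix hf hyK]
        have h2 := huniq Y hY X hX h1
        have h3 : (h' * X.1 i * h).map f = h' * X.1 i * h := by
          calc (h' * X.1 i * h).map f = h' * (h * (h' * X.1 i * h).map f * h') * h := by
                rw [hch]
            _ = h' * X.1 i * h := by rw [← hY2, h2]
        have h4 := congrFun (congrFun h3 a) b
        rwa [Matrix.map_apply] at h4
      have hK01 : ∀ a b, me a b ∈ K ∧ mf a b ∈ K := by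
        intro a b
        fin_cases a <;> fin_cases b <;> simp [me, mf, K.zero_mem, K.one_mem]
      -- the brackets
      have hbrc : ∀ X ∈ T, ∀ Y ∈ T, ∀ Z ∈ T, ∀ (a b c : M2), X.1 j = g * a * g' →
          Y.1 j = g * b * g' → Z.1 j = g * c * g' → a * b - b * a = c →
          (h' * X.1 i * h) * (h' * Y.1 i * h) - (h' * Y.1 i * h) * (h' * X.1 i * h) =
            h' * Z.1 i * h := by
        intro X hX Y hY Z hZ a b c ha hb hc hab
        obtain ⟨W, hW, hWl⟩ := hbr X hX Y hY
        have hm : ∀ a b : M2, (g * a * g') * (g * b * g') = g * (a * b) * g' := by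
          intro a b
          calc (g * a * g') * (g * b * g') = g * a * (g' * g) * b * g' := by
                simp only [Matrix.mul_assoc]
            _ = g * (a * b) * g' := by rw [hg', Matrix.mul_one]; simp only [Matrix.mul_assoc]
        have hm' : ∀ a b : M2, (h' * a * h) * (h' * b * h) = h' * (a * b) * h := by
          intro a b
          calc (h' * a * h) * (h' * b * h) = h' * a * (h * h') * b * h := by
                simp only [Matrix.mul_assoc]
            _ = h' * (a * b) * h := by rw [hh', Matrix.mul_one]; simp only [Matrix.mul_assoc]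
        have h1 : W.1 j = Z.1 j := by
          rw [hWl, ha, hb, hc, hm, hm, ← hab, Matrix.mul_sub, Matrix.sub_mul]
        have h2 := huniq W hW Z hZ h1
        rw [hm', hm', ← Matrix.sub_mul, ← Matrix.mul_sub, ← hWl, h2]
      obtain ⟨Xh, hXh, hXhl⟩ := hbr Xe hXe Xf hXf
      have h1 : Xh.1 j = g * mh * g' := by
        rw [hXhl, e1, f1]
        have hm : ∀ a b : M2, (g * a * g') * (g * b * g') = g * (a * b) * g' := by
          intro a b
          calc (g * a * g') * (g * b * g') = g * a * (g' * g) * b * g' := by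
                simp only [Matrix.mul_assoc]
            _ = g * (a * b) * g' := by rw [hg', Matrix.mul_one]; simp only [Matrix.mul_assoc]
        rw [hm, hm, ← me_mf, Matrix.mul_sub, Matrix.sub_mul]
      have hth : ∀ y : M2, y.trace = 0 → (h' * y * h).trace = 0 := by
        intro y hy
        rw [Matrix.trace_mul_comm, ← Matrix.mul_assoc, hh', Matrix.one_mul, hy]
      have hE0 : h' * Xe.1 i * h ≠ 0 := by
        intro h0
        have h2 : Xe.1 i = 0 := by
          calc Xe.1 i = (h * h') * Xe.1 i * (h * h') := by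
                rw [hh', Matrix.one_mul, Matrix.mul_one]
            _ = h * (h' * Xe.1 i * h) * h' := by simp only [Matrix.mul_assoc]
            _ = 0 := by rw [h0, Matrix.mul_zero, Matrix.zero_mul]
        -- then everything vanishes at `i`
        have h3 : ∀ Y ∈ T, ((fun l => Xe.1 l * Y.1 l - Y.1 l * Xe.1 l : ι → M2) i) = 0 := by
          intro Y hY
          change Xe.1 i * Y.1 i - Y.1 i * Xe.1 i = 0
          rw [h2, Matrix.zero_mul, Matrix.mul_zero, sub_zero]
        have h4 : Xh.1 i = 0 := by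
          rw [hXhl, h2, Matrix.zero_mul, Matrix.mul_zero, sub_zero]
        have h5 : Xf.1 i = 0 := by
          obtain ⟨Y, hY, hYl⟩ := hbr Xh hXh Xf hXf
          have h6 : Y.1 j = ((-2 : ℂ) • Xf).1 j := by
            change Y.1 j = (-2 : ℂ) • Xf.1 j
            rw [hYl, h1, f1]
            have hm : ∀ a b : M2, (g * a * g') * (g * b * g') = g * (a * b) * g' := by
              intro a b
              calc (g * a * g') * (g * b * g') = g * a * (g' * g) * b * g' := by
                    simp only [Matrix.mul_assoc]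
                _ = g * (a * b) * g' := by rw [hg', Matrix.mul_one]; simp only [Matrix.mul_assoc]
            rw [hm, hm, ← Matrix.sub_mul, ← Matrix.mul_sub, mh_mf, Matrix.mul_smul,
              Matrix.smul_mul]
          have h7 := huniq Y hY _ (T.smul_mem (-2 : ℂ) hXf) h6
          change Y.1 i = (-2 : ℂ) • Xf.1 i at h7
          rw [hYl, h4, Matrix.zero_mul, Matrix.mul_zero, sub_zero] at h7
          exact (smul_eq_zero.1 h7.symm).resolve_left (by norm_num)
        -- every element of `T` has zero component at `i`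
        obtain ⟨Y, hY, hYi⟩ := hT.surj hy hFK hK hKA i tr_me
        have h6 := eq_std (x := g' * Y.1 j * g) (by
          rw [Matrix.trace_mul_comm, ← Matrix.mul_assoc, hg, Matrix.one_mul]
          exact hT.tr Y hY j)
        obtain ⟨Z, hZ⟩ : ∃ Z : LL2 ι, Z = (g' * Y.1 j * g) 0 0 • Xh + (g' * Y.1 j * g) 0 1 • Xe +
            (g' * Y.1 j * g) 1 0 • Xf := ⟨_, rfl⟩
        have hZT : Z ∈ T := by
          rw [hZ]
          exact T.add_mem (T.add_mem (T.smul_mem _ hXh) (T.smul_mem _ hXe)) (T.smul_mem _ hXf)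
        have h7 : Y.1 j = Z.1 j := by
          rw [hZ]
          change Y.1 j = (g' * Y.1 j * g) 0 0 • Xh.1 j + (g' * Y.1 j * g) 0 1 • Xe.1 j +
            (g' * Y.1 j * g) 1 0 • Xf.1 j
          rw [h1, e1, f1]
          calc Y.1 j = (g * g') * Y.1 j * (g * g') := by
                rw [hg, Matrix.one_mul, Matrix.mul_one]
            _ = g * (g' * Y.1 j * g) * g' := by simp only [Matrix.mul_assoc]
            _ = _ := by
              conv_lhs => rw [h6]
              rw [Matrix.mul_add, Matrix.mul_add, Matrix.add_mul, Matrix.add_mul,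
                Matrix.mul_smul, Matrix.mul_smul, Matrix.mul_smul, Matrix.smul_mul,
                Matrix.smul_mul, Matrix.smul_mul]
        have h8 := huniq Y hY Z hZT h7
        rw [hYi, hZ] at h8
        change me = (g' * Y.1 j * g) 0 0 • Xh.1 i + (g' * Y.1 j * g) 0 1 • Xe.1 i +
          (g' * Y.1 j * g) 1 0 • Xf.1 i at h8
        rw [h2, h4, h5, smul_zero, smul_zero, smul_zero, add_zero, add_zero] at h8
        exact me_ne h8
      obtain ⟨P, hPK, hPdet, hPe, hPf, hPh⟩ := exists_conj (K := K)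
        (hrat Xe hXe me (fun a b => (hK01 a b).1) e1)
        (hrat Xf hXf mf (fun a b => (hK01 a b).2) f1)
        (hth _ (hT.tr Xe hXe i)) (hth _ (hT.tr Xf hXf i))
        (hbrc Xe hXe Xf hXf Xh hXh me mf mh e1 f1 h1 me_mf)
        (by
          have h2 := hbrc Xh hXh Xe hXe ((2 : ℂ) • Xe) (T.smul_mem _ hXe) mh me ((2 : ℂ) • me) h1
            e1 (by
              change (2 : ℂ) • Xe.1 j = _
              rw [e1, Matrix.mul_smul, Matrix.smul_mul]) mh_me
          rw [h2]
          change h' * ((2 : ℂ) • Xe.1 i) * h = _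
          rw [Matrix.mul_smul, Matrix.smul_mul])
        (by
          have h2 := hbrc Xh hXh Xf hXf ((-2 : ℂ) • Xf) (T.smul_mem _ hXf) mh mf ((-2 : ℂ) • mf)
            h1 f1 (by
              change (-2 : ℂ) • Xf.1 j = _
              rw [f1, Matrix.mul_smul, Matrix.smul_mul]) mh_mf
          rw [h2]
          change h' * ((-2 : ℂ) • Xf.1 i) * h = _
          rw [Matrix.mul_smul, Matrix.smul_mul]) hE0
      refine ⟨P, hPK, hPdet, fun Y hY => ?_⟩
      have h6 := eq_std (x := g' * Y.1 j * g) (by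
        rw [Matrix.trace_mul_comm, ← Matrix.mul_assoc, hg, Matrix.one_mul]
        exact hT.tr Y hY j)
      obtain ⟨Z, hZ⟩ : ∃ Z : LL2 ι, Z = (g' * Y.1 j * g) 0 0 • Xh + (g' * Y.1 j * g) 0 1 • Xe +
          (g' * Y.1 j * g) 1 0 • Xf := ⟨_, rfl⟩
      have hZT : Z ∈ T := by
        rw [hZ]
        exact T.add_mem (T.add_mem (T.smul_mem _ hXh) (T.smul_mem _ hXe)) (T.smul_mem _ hXf)
      have h7 : Y.1 j = Z.1 j := by
        rw [hZ]
        change Y.1 j = (g' * Y.1 j * g) 0 0 • Xh.1 j + (g' * Y.1 j * g) 0 1 • Xe.1 j +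
          (g' * Y.1 j * g) 1 0 • Xf.1 j
        rw [h1, e1, f1]
        calc Y.1 j = (g * g') * Y.1 j * (g * g') := by
              rw [hg, Matrix.one_mul, Matrix.mul_one]
          _ = g * (g' * Y.1 j * g) * g' := by simp only [Matrix.mul_assoc]
          _ = _ := by
            conv_lhs => rw [h6]
            rw [Matrix.mul_add, Matrix.mul_add, Matrix.add_mul, Matrix.add_mul,
              Matrix.mul_smul, Matrix.mul_smul, Matrix.mul_smul, Matrix.smul_mul,
              Matrix.smul_mul, Matrix.smul_mul]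
      have h8 : Y.1 i = (g' * Y.1 j * g) 0 0 • Xh.1 i + (g' * Y.1 j * g) 0 1 • Xe.1 i +
          (g' * Y.1 j * g) 1 0 • Xf.1 i := by
        have h9 := huniq Y hY Z hZT h7
        rw [h9, hZ]
        rfl
      rw [h8]
      conv_lhs => rw [h6]
      simp only [Matrix.mul_add, Matrix.add_mul, Matrix.mul_smul, Matrix.smul_mul, hPe, hPf, hPh]
    -- the Betti side
    obtain ⟨P, hPK, hPdet, hP⟩ := key 1 1 (one_mul 1) (one_mul 1) 1 1 (one_mul 1) (one_mul 1) (by
      intro f X hX
      refine ⟨_, hT.hF (lower hFK f) X hX, ?_, ?_⟩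
      · change (X.1 j).map (lower hFK f) = _
        rw [Matrix.one_mul, Matrix.one_mul, Matrix.mul_one, Matrix.mul_one, coe_lower]
      · change (X.1 i).map (lower hFK f) = _
        rw [Matrix.one_mul, Matrix.one_mul, Matrix.mul_one, Matrix.mul_one, coe_lower])
    -- the de Rham side
    obtain ⟨R, hRK, hRdet, hR⟩ := key (s j) (s' j) (hy.ss' j) (hy.s's j) (s i) (s' i) (hy.s's i)
      (hy.ss' i) (by
      intro f X hX
      exact ⟨_, hT.hK f X hX, rfl, rfl⟩)
    simp only [Matrix.one_mul, Matrix.mul_one] at hP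
    -- the two conjugations differ by a scalar
    have hRinv : R * R⁻¹ = 1 := Matrix.mul_nonsing_inv _ (isUnit_iff_ne_zero.2 hRdet)
    obtain ⟨M, hM⟩ : ∃ M : M2, M = s' i * P * s j * R⁻¹ := ⟨_, rfl⟩
    have hcomm : ∀ y : M2, y.trace = 0 → M * y = y * M := by
      intro y hytr
      obtain ⟨X, hX, hXi⟩ := hT.surj hy hFK hK hKA i (x := s i * y * s' i) (by
        rw [Matrix.trace_mul_comm, ← Matrix.mul_assoc, hy.s's, Matrix.one_mul, hytr])
      have h1 : s' i * X.1 i * s i = y := by
        rw [hXi]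
        calc s' i * (s i * y * s' i) * s i = (s' i * s i) * y * (s' i * s i) := by
              simp only [Matrix.mul_assoc]
          _ = y := by rw [hy.s's, Matrix.one_mul, Matrix.mul_one]
      have h2 := hR X hX
      rw [h1] at h2
      have h3 := hP X hX
      have hRinv' : R⁻¹ * R = 1 := Matrix.nonsing_inv_mul _ (isUnit_iff_ne_zero.2 hRdet)
      -- `R⁻¹ y = (s' j X_j s j) R⁻¹`
      have h4 : R⁻¹ * y = (s' j * X.1 j * s j) * R⁻¹ := by
        calc R⁻¹ * y = R⁻¹ * y * (R * R⁻¹) := by rw [hRinv, Matrix.mul_one]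
          _ = R⁻¹ * (y * R) * R⁻¹ := by simp only [Matrix.mul_assoc]
          _ = R⁻¹ * (R * (s' j * X.1 j * s j)) * R⁻¹ := by rw [h2]
          _ = (R⁻¹ * R) * (s' j * X.1 j * s j) * R⁻¹ := by simp only [Matrix.mul_assoc]
          _ = _ := by rw [hRinv', Matrix.one_mul]
      calc M * y = s' i * P * s j * (R⁻¹ * y) := by rw [hM]; simp only [Matrix.mul_assoc]
        _ = s' i * P * (s j * s' j) * X.1 j * s j * R⁻¹ := by
            rw [h4]; simp only [Matrix.mul_assoc]
        _ = s' i * (P * X.1 j) * s j * R⁻¹ := by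
            rw [hy.ss', Matrix.mul_one]; simp only [Matrix.mul_assoc]
        _ = s' i * X.1 i * P * s j * R⁻¹ := by rw [h3]; simp only [Matrix.mul_assoc]
        _ = (s' i * X.1 i * s i) * (s' i * P * s j * R⁻¹) := by
            have h5 : X.1 i = X.1 i * (s i * s' i) := by rw [hy.ss', Matrix.mul_one]
            conv_lhs => rw [h5]
            simp only [Matrix.mul_assoc]
        _ = y * M := by rw [h1, hM]
    have hMs : ∃ c : ℂ, M = c • (1 : M2) := by
      have h1 := hcomm me tr_me
      have h2 := hcomm mf tr_mf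
      refine ⟨M 0 0, ?_⟩
      have a1 := congrFun (congrFun h1 0) 0
      have a2 := congrFun (congrFun h1 0) 1
      have b1 := congrFun (congrFun h2 0) 0
      simp [me, mf, Matrix.mul_apply, Fin.sum_univ_two] at a1 a2 b1
      ext a b
      fin_cases a <;> fin_cases b
      · simp
      · simp [b1]
      · simp [← a1]
      · simp [a2]
    obtain ⟨c, hc⟩ := hMs
    refine hy.link i j hij P R hPK hRK hPdet hRdet c ?_
    have hRinv' : R⁻¹ * R = 1 := Matrix.nonsing_inv_mul _ (isUnit_iff_ne_zero.2 hRdet)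
    calc P * s j = (s i * s' i) * P * s j * (R⁻¹ * R) := by
          rw [hy.ss', hRinv', Matrix.one_mul, Matrix.mul_one]
      _ = s i * (s' i * P * s j * R⁻¹) * R := by simp only [Matrix.mul_assoc]
      _ = s i * (c • (1 : M2)) * R := by rw [← hM, hc]
      _ = c • (s i * R) := by
          rw [Matrix.mul_smul, Matrix.mul_one, Matrix.smul_mul]

end main

end Pool.Agent.TH164.A1
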