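import Pool.Agent.TH164.A1.Lie

/-!
# Lie algebras which are rational on both sides, second part
-/

set_option autoImplicit false
set_option linter.unusedSectionVars false
set_option linter.unusedVariables false

open Finset Matrix

namespace Pool.Agent.TH164.A1

open Pool.Agent.TH119.MX Pool.Agent.TH119.DR

variable {ι : Type} [DecidableEq ι] {F K : Subfield ℂ}
variable {s s' : ι → M2} {z : ℂ} {T : Submodule ℂ (LL2 ι)}

theorem br_val (X Y : LL2 ι) (i : ι) :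
    ((fun i => X.1 i * Y.1 i - Y.1 i * X.1 i, 0) : LL2 ι).1 i =
      X.1 i * Y.1 i - Y.1 i * X.1 i := rfl

/-- Elements with vanishing components in a finite set. -/
theorem Gd.iso (hT : Gd F K s s' z T) (hy : Hy K s s' z) (hFK : F ≤ K) (hK : SqClosed K)
    (hKA : ∀ x, IsAlgebraic ℚ x → x ∈ K) (i : ι) (E : Finset ι) : i ∉ E →
    ∀ x : M2, x.trace = 0 → ∃ X ∈ T, X.1 i = x ∧ ∀ l ∈ E, X.1 l = 0 := by
  induction E using Finset.induction_on with
  | empty =>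
    intro _ x hx
    obtain ⟨X, hX, h⟩ := hT.surj hy hFK hK hKA i hx
    exact ⟨X, hX, h, fun l hl => absurd hl (Finset.notMem_empty _)⟩
  | insert d E hd ih =>
    intro hi x hx
    have hid : i ≠ d := by
      rintro rfl
      exact hi (Finset.mem_insert_self _ _)
    have hiE : i ∉ E := fun h => hi (Finset.mem_insert_of_mem h)
    obtain ⟨Ye, hYe, hYe1, hYe2⟩ := ih hiE me tr_me
    obtain ⟨Yh, hYh, hYh1, hYh2⟩ := ih hiE mh tr_mh
    obtain ⟨Ze, hZe, hZe1, hZe2⟩ := hT.pair hy hFK hK hKA hid tr_me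
    obtain ⟨Zf, hZf, hZf1, hZf2⟩ := hT.pair hy hFK hK hKA hid tr_mf
    refine ⟨x 0 0 • ((fun i => Ye.1 i * Zf.1 i - Zf.1 i * Ye.1 i, 0) : LL2 ι) +
      (x 0 1 / 2) • ((fun i => Yh.1 i * Ze.1 i - Ze.1 i * Yh.1 i, 0) : LL2 ι) +
      (-(x 1 0 / 2)) • ((fun i => Yh.1 i * Zf.1 i - Zf.1 i * Yh.1 i, 0) : LL2 ι),
      T.add_mem (T.add_mem (T.smul_mem _ (hT.br _ hYe _ hZf)) (T.smul_mem _ (hT.br _ hYh _ hZe)))
        (T.smul_mem _ (hT.br _ hYh _ hZf)), ?_, ?_⟩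
    · change x 0 0 • (Ye.1 i * Zf.1 i - Zf.1 i * Ye.1 i) +
        (x 0 1 / 2) • (Yh.1 i * Ze.1 i - Ze.1 i * Yh.1 i) +
        (-(x 1 0 / 2)) • (Yh.1 i * Zf.1 i - Zf.1 i * Yh.1 i) = x
      rw [hYe1, hZf1, hYh1, hZe1, me_mf, mh_me, mh_mf, smul_smul, smul_smul]
      conv_rhs => rw [eq_std hx]
      congr 2
      · rw [div_mul_cancel₀ _ two_ne_zero]
      · ring
    · intro l hl
      change x 0 0 • (Ye.1 l * Zf.1 l - Zf.1 l * Ye.1 l) +
        (x 0 1 / 2) • (Yh.1 l * Ze.1 l - Ze.1 l * Yh.1 l) +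
        (-(x 1 0 / 2)) • (Yh.1 l * Zf.1 l - Zf.1 l * Yh.1 l) = 0
      rcases Finset.mem_insert.1 hl with rfl | h
      · rw [hZf2, hZe2]
        simp
      · rw [hYe2 l h, hYh2 l h]
        simp

variable [Fintype ι]

/-- Elements with one nonzero component. -/
theorem Gd.single (hT : Gd F K s s' z T) (hy : Hy K s s' z) (hFK : F ≤ K) (hK : SqClosed K)
    (hKA : ∀ x, IsAlgebraic ℚ x → x ∈ K) (i : ι) {x : M2} (hx : x.trace = 0) :
    ((Pi.single i x, 0) : LL2 ι) ∈ T := by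
  have hi : i ∉ Finset.univ.erase i := Finset.notMem_erase _ _
  have hE : ∀ l, l ≠ i → l ∈ Finset.univ.erase i := fun l h =>
    Finset.mem_erase.2 ⟨h, Finset.mem_univ _⟩
  obtain ⟨Ye, hYe, hYe1, hYe2⟩ := hT.iso hy hFK hK hKA i _ hi me tr_me
  obtain ⟨Yh, hYh, hYh1, hYh2⟩ := hT.iso hy hFK hK hKA i _ hi mh tr_mh
  obtain ⟨Yf, hYf, hYf1, hYf2⟩ := hT.iso hy hFK hK hKA i _ hi mf tr_mf
  have h1 := T.add_mem (T.add_mem (T.smul_mem (x 0 0) (hT.br _ hYe _ hYf))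
    (T.smul_mem (x 0 1 / 2) (hT.br _ hYh _ hYe))) (T.smul_mem (-(x 1 0 / 2)) (hT.br _ hYh _ hYf))
  refine (congrArg (· ∈ T) ?_).mp h1
  refine Prod.ext (funext fun l => ?_) ?_
  · change x 0 0 • (Ye.1 l * Yf.1 l - Yf.1 l * Ye.1 l) +
        (x 0 1 / 2) • (Yh.1 l * Ye.1 l - Ye.1 l * Yh.1 l) +
        (-(x 1 0 / 2)) • (Yh.1 l * Yf.1 l - Yf.1 l * Yh.1 l) =
          Pi.single (M := fun _ : ι => M2) i x l
    by_cases h : l = i
    · subst h
      rw [Pi.single_eq_same, hYe1, hYh1, hYf1, me_mf, mh_me, mh_mf, smul_smul, smul_smul]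
      conv_rhs => rw [eq_std hx]
      congr 2
      · rw [div_mul_cancel₀ _ two_ne_zero]
      · ring
    · rw [Pi.single_eq_of_ne h, hYe2 l (hE l h), hYh2 l (hE l h)]
      simp
  · change x 0 0 * 0 + (x 0 1 / 2) * 0 + (-(x 1 0 / 2)) * 0 = (0 : ℂ)
    ring

theorem Gd.sls (hT : Gd F K s s' z T) (hy : Hy K s s' z) (hFK : F ≤ K) (hK : SqClosed K)
    (hKA : ∀ x, IsAlgebraic ℚ x → x ∈ K) {x : ι → M2} (hx : ∀ i, (x i).trace = 0) :
    ((x, 0) : LL2 ι) ∈ T := by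
  have h1 : ((x, 0) : LL2 ι) = ∑ i, ((Pi.single i (x i), 0) : LL2 ι) := by
    refine Prod.ext ?_ ?_
    · rw [Prod.fst_sum]
      exact (Finset.univ_sum_single x).symm
    · rw [Prod.snd_sum]
      exact (Finset.sum_eq_zero fun _ _ => rfl).symm
  rw [h1]
  exact T.sum_mem fun i _ => hT.single hy hFK hK hKA i (hx i)

/-- **The Lie algebra is everything.** -/
theorem Gd.all (hT : Gd F K s s' z T) (hy : Hy K s s' z) (hFK : F ≤ K) (hK : SqClosed K)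
    (hKA : ∀ x, IsAlgebraic ℚ x → x ∈ K) {x : ι → M2} (hx : ∀ i, (x i).trace = 0) (c : ℂ) :
    ((x, c) : LL2 ι) ∈ T := by
  obtain ⟨δ, hδ⟩ := exists_deriv hy.trz
  have h1 := hT.der δ
  have h2 := hT.sls hy hFK hK hKA (x := fun i => (s i).map δ * s' i) (fun i => hT.tr _ h1 i)
  have h3 := T.sub_mem h1 h2
  have h4 : δ z / z ≠ 0 := div_ne_zero hδ hy.z0
  have h5 : (((fun i => (s i).map δ * s' i, δ z / z) : LL2 ι) -
      ((fun i => (s i).map δ * s' i, 0) : LL2 ι)) = ((0, δ z / z) : LL2 ι) := by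
    rw [Prod.mk_sub_mk, sub_self, sub_zero]
  rw [h5] at h3
  have h6 := T.add_mem (hT.sls hy hFK hK hKA hx) (T.smul_mem (c / (δ z / z)) h3)
  refine (congrArg (· ∈ T) ?_).mp h6
  refine Prod.ext ?_ ?_
  · change x + (c / (δ z / z)) • (0 : ι → M2) = x
    rw [smul_zero, add_zero]
  · change 0 + c / (δ z / z) * (δ z / z) = c
    rw [zero_add, div_mul_cancel₀ _ h4]

end Pool.Agent.TH164.A1
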